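import Pool.Agent.Lib.MP_b6ada6_gt.Top

/-! Derivatives in cylinder coordinates. -/

noncomputable section

namespace Pool.Agent.Lib.MP_b6ada6_gt

open Set Filter Topology Real

variable {l θ : ℝ} {t f : (Fin 3 → ℝ) → ℝ}

/-- the angle -/
def an (θ : ℝ) (x : ℝ × ℝ) : ℝ := 2 * π * x.1 + θ * x.2

/-- cylinder coordinates, with the lattice of the deck group normalised -/
def Ps (l θ : ℝ) (q : ℝ × ℝ × ℝ) : Fin 3 → ℝ := fermi q.1 (an θ q.2) (l * q.2.2)

theorem H3_open : IsOpen H3 := isOpen_lt continuous_const (continuous_apply 2)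

theorem Ps_mem (q : ℝ × ℝ × ℝ) : Ps l θ q ∈ H3 := fermi_mem _ _ _

theorem an_smooth : ContDiff ℝ 2 fun q : ℝ × ℝ × ℝ => an θ q.2 := by
  unfold an
  fun_prop

theorem Ps_smooth : ContDiff ℝ 2 (Ps l θ) := by
  have := an_smooth (θ := θ)
  unfold Ps
  simp only [fermi, tanh_eq_sinh_div_cosh]
  refine (ContDiff.exp (f := fun q : ℝ × ℝ × ℝ => l * q.2.2) (by fun_prop)).smul
    (contDiff_pi.2 fun i => ?_)
  have h : ∀ q : ℝ × ℝ × ℝ, cosh q.1 ≠ 0 := fun q => (cosh_pos _).ne'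
  fin_cases i
  · exact (contDiff_fst.sinh.div contDiff_fst.cosh h).mul this.cos
  · exact (contDiff_fst.sinh.div contDiff_fst.cosh h).mul this.sin
  · exact contDiff_const.div contDiff_fst.cosh h

theorem comp1 (hf : ContDiffOn ℝ 1 f H3) : ContDiff ℝ 1 fun q => f (Ps l θ q) :=
  hf.comp_contDiff (Ps_smooth.of_le one_le_two) Ps_mem

theorem comp0 (hf : ContinuousOn f H3) : Continuous fun q => f (Ps l θ q) :=
  hf.comp_continuous Ps_smooth.continuous Ps_mem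

theorem pd_smooth (ht : ContDiffOn ℝ 2 t H3) (i : Fin 3) : ContDiffOn ℝ 1 (pd t i) H3 :=
  (ht.fderiv_of_isOpen H3_open one_add_one_eq_two.le).clm_apply contDiffOn_const

theorem pd_cont (hf : ContDiffOn ℝ 1 f H3) (i : Fin 3) : ContinuousOn (pd f i) H3 :=
  (hf.continuousOn_fderiv_of_isOpen H3_open le_rfl).clm_apply continuousOn_const

theorem fd_sum (p w : Fin 3 → ℝ) :
    fderiv ℝ f p w = pd f 0 p * w 0 + pd f 1 p * w 1 + pd f 2 p * w 2 := by
  have e : w = w 0 • Pi.single 0 (1 : ℝ) + w 1 • Pi.single 1 (1 : ℝ) + w 2 • Pi.single 2 (1 : ℝ) := by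
    funext i
    fin_cases i <;> simp
  conv_lhs => rw [e]
  simp only [map_add, map_smul, pd, smul_eq_mul]
  ring

theorem gn_pos {p : Fin 3 → ℝ} (h : fderiv ℝ t p ≠ 0) : 0 < ∑ j, pd t j p ^ 2 := by
  refine (Finset.sum_nonneg fun j _ => sq_nonneg _).lt_of_ne fun e => h ?_
  have := (Finset.sum_eq_zero_iff_of_nonneg fun j _ => sq_nonneg (pd t j p)).1 e.symm
  ext w
  simp [fd_sum, pow_eq_zero_iff two_ne_zero |>.1 (this _ (Finset.mem_univ _))]

theorem gn_smooth (ht : ContDiffOn ℝ 2 t H3) (h0 : ∀ p ∈ H3, fderiv ℝ t p ≠ 0) :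
    ContDiffOn ℝ 1 (fun p => √(∑ j, pd t j p ^ 2)) H3 :=
  (ContDiffOn.sum fun j _ => (pd_smooth ht j).pow 2).sqrt fun p hp => (gn_pos (h0 p hp)).ne'

theorem nu_smooth (ht : ContDiffOn ℝ 2 t H3) (h0 : ∀ p ∈ H3, fderiv ℝ t p ≠ 0) (i : Fin 3) :
    ContDiffOn ℝ 1 (nu t i) H3 :=
  (pd_smooth ht i).div (gn_smooth ht h0) fun p hp => (sqrt_pos.2 (gn_pos (h0 p hp))).ne'

theorem mc_cont (ht : ContDiffOn ℝ 2 t H3) (h0 : ∀ p ∈ H3, fderiv ℝ t p ≠ 0) :
    ContinuousOn (mc t) H3 :=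
  ((continuous_apply 2).continuousOn.mul (continuousOn_finsetSum _ fun i _ =>
    pd_cont (nu_smooth ht h0 i) i)).sub (continuousOn_const.mul (nu_smooth ht h0 2).continuousOn)

theorem chain (hf : ContDiffOn ℝ 1 f H3) (q v : ℝ × ℝ × ℝ) :
    fderiv ℝ (fun q => f (Ps l θ q)) q v = exp (l * q.2.2) / cosh q.1 *
      (pd f 0 (Ps l θ q) * (cos (an θ q.2) / cosh q.1 * v.1 - sinh q.1 * sin (an θ q.2) * an θ v.2
          + sinh q.1 * cos (an θ q.2) * (l * v.2.2)) +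
        pd f 1 (Ps l θ q) * (sin (an θ q.2) / cosh q.1 * v.1 + sinh q.1 * cos (an θ q.2) * an θ v.2
          + sinh q.1 * sin (an θ q.2) * (l * v.2.2)) +
        pd f 2 (Ps l θ q) * (-sinh q.1 / cosh q.1 * v.1 + l * v.2.2)) := by
  have hP := (Ps_smooth (l := l) (θ := θ)).differentiable two_ne_zero q
  have h1 := ((hf.contDiffAt (H3_open.mem_nhds (Ps_mem (l := l) (θ := θ) q))).differentiableAt
    one_ne_zero).hasFDerivAt.comp q hP.hasFDerivAt
  rw [show (fun q => f (Ps l θ q)) = f ∘ Ps l θ from rfl, h1.fderiv, ContinuousLinearMap.comp_apply,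
    fd_sum]
  have h2 := hasDerivAt_pi.1 (hP.hasFDerivAt.hasLineDerivAt v)
  have hc := (cosh_pos q.1).ne'
  have li : ∀ a b : ℝ, HasDerivAt (fun s : ℝ => a + s * b) b 0 := fun a b => by
    simpa using ((hasDerivAt_id (0 : ℝ)).mul_const b).const_add a
  have hr := li q.1 v.1
  have ha := li (an θ q.2) (an θ v.2)
  have hz := (li (l * q.2.2) (l * v.2.2)).exp
  have e : ∀ s : ℝ, Ps l θ (q + s • v) =
      fermi (q.1 + s * v.1) (an θ q.2 + s * an θ v.2) (l * q.2.2 + s * (l * v.2.2)) := fun s => by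
    simp only [Ps, an, Prod.fst_add, Prod.snd_add, Prod.smul_fst, Prod.smul_snd, smul_eq_mul]
    congr 1 <;> ring
  simp only [e, fermi, tanh_eq_sinh_div_cosh] at h2
  have ht := hr.sinh.div hr.cosh (by simpa using hc)
  rw [(h2 0).unique (hz.mul (ht.mul ha.cos)), (h2 1).unique (hz.mul (ht.mul ha.sin)),
    (h2 2).unique (hz.mul ((hasDerivAt_const (0 : ℝ) (1 : ℝ)).div hr.cosh (by simpa using hc)))]
  simp only [Pi.div_apply, zero_mul, add_zero, Matrix.cons_val]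
  field_simp
  linear_combination (pd f 0 (Ps l θ q) * cos (an θ q.2) + pd f 1 (Ps l θ q) * sin (an θ q.2)) *
    v.1 * cosh_sq q.1

end Pool.Agent.Lib.MP_b6ada6_gt
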