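import Pool.Agent.Lib.MP_b6ada6_gt.Main

/-! Numerical consequences of the tube inequality for minimal and for mean convex foliations. -/

noncomputable section

namespace Pool.Agent.Lib.MP_b6ada6_gt

open Set Filter Topology Real MeasureTheory

variable {l θ : ℝ} {t : (Fin 3 → ℝ) → ℝ}

theorem piece (hl : 0 < l) (h8 : l ≤ 1 / 8) {c : ℝ} (hc : 0 ≤ c) {N : ℤ}
    (hθ : ∀ m n : ℤ, n ≠ 0 → |n| < N → c * l ≤ |2 * π * m + n * θ|) {x y a b : ℝ} (hx : 1 ≤ x)
    (hxy : x ≤ y) (ha : 0 ≤ a) (hb : 0 ≤ b)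
    (h : ∀ S C : ℝ, (x - x⁻¹) / 2 ≤ S → S ≤ (y - y⁻¹) / 2 → 0 ≤ S → 1 ≤ C → C ≤ 1 + S →
      C ^ 2 = S ^ 2 + 1 → a * C + b * S ≤ 50 * S ∧ (a * C + b * S) ^ 2 ≤ C ^ 2 + (c * S) ^ 2 ∧
        a * C + b * S ≤ N * C) :
    l * (a * ((y - y⁻¹) / 2 - (x - x⁻¹) / 2) + b * ((y + y⁻¹) / 2 - (x + x⁻¹) / 2)) ≤
      ∫ r in log x..log y, sys l θ r := by
  have x0 : 0 < x := by linarith
  have y0 : 0 < y := by linarith
  have e : ∫ r in log x..log y, l * (a * cosh r + b * sinh r) = _ :=
    intervalIntegral.integral_eq_sub_of_hasDerivAt (f := fun r => l * (a * sinh r + b * cosh r))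
      (fun r _ => (((hasDerivAt_sinh r).const_mul a).add
        ((hasDerivAt_cosh r).const_mul b)).const_mul l)
      (Continuous.intervalIntegrable (by fun_prop) _ _)
  rw [sinh_log x0, sinh_log y0, cosh_log x0, cosh_log y0] at e
  refine le_trans (le_of_eq (by rw [e]; ring)) (intervalIntegral.integral_mono_on
    (f := fun r => l * (a * cosh r + b * sinh r)) (log_le_log x0 hxy)
    (Continuous.intervalIntegrable (by fun_prop) _ _) (sys_int l θ _ _) fun r hr => ?_)
  have hs : 0 ≤ sinh r := sinh_nonneg_iff.2 ((log_nonneg hx).trans hr.1)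
  have hC := one_le_cosh r
  obtain ⟨h1, h2, h3⟩ := h (sinh r) (cosh r) (sinh_log x0 ▸ sinh_le_sinh.2 hr.1)
    (sinh_log y0 ▸ sinh_le_sinh.2 hr.2) hs hC
    ((le_abs_self _).trans (abs_le_of_sq_le_sq (by rw [cosh_sq]; nlinarith) (by linarith)))
    (cosh_sq r)
  have g0 : 0 ≤ a * cosh r + b * sinh r := by positivity
  generalize a * cosh r + b * sinh r = g at *
  have : Nonempty {k : ℤ × ℤ // k ≠ 0} := ⟨⟨(1, 0), by simp⟩⟩
  refine le_ciInf fun ⟨⟨m, n⟩, hk⟩ => le_sqrt_of_sq_le ?_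
  have one : ∀ j : ℤ, j ≠ 0 → (1 : ℝ) ≤ (j : ℝ) ^ 2 := fun j hj => by
    exact_mod_cast (one_le_sq_iff_one_le_abs j).2 (Int.one_le_abs hj)
  simp only
  by_cases h0 : n = 0
  · have h4 := one m fun e => hk (Prod.ext e h0)
    have h5 : l * g ≤ 2 * π * sinh r := by nlinarith [pi_gt_d2]
    have h6 := pow_le_pow_left₀ (by positivity) h5 2
    rw [h0, Int.cast_zero]
    nlinarith [mul_le_mul_of_nonneg_left h4 (sq_nonneg (2 * π * sinh r))]
  by_cases hN : |n| < N
  · have h4 := pow_le_pow_left₀ (by positivity) (hθ m n h0 hN) 2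
    rw [sq_abs] at h4
    nlinarith [mul_le_mul_of_nonneg_left (one n h0) (sq_nonneg (l * cosh r)),
      mul_le_mul_of_nonneg_left h4 (sq_nonneg (sinh r)), mul_le_mul_of_nonneg_left h2 (sq_nonneg l)]
  · have h4 : (N : ℝ) ≤ |(n : ℝ)| := by exact_mod_cast not_lt.1 hN
    have h5 : g ≤ |(n : ℝ)| * cosh r := h3.trans (mul_le_mul_of_nonneg_right h4 (by linarith))
    have h6 := pow_le_pow_left₀ g0 h5 2
    rw [mul_pow, sq_abs] at h6
    nlinarith [mul_le_mul_of_nonneg_left h6 (sq_nonneg l),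
      sq_nonneg ((2 * π * m + n * θ) * sinh r)]

theorem split (l θ a b c : ℝ) : ∫ r in a..c, sys l θ r =
    (∫ r in a..b, sys l θ r) + ∫ r in b..c, sys l θ r :=
  (intervalIntegral.integral_add_adjacent_intervals (sys_int l θ a b) (sys_int l θ b c)).symm

theorem first (l θ : ℝ) {b : ℝ} (hb : 1 ≤ b) : 0 ≤ ∫ r in (0 : ℝ)..log b, sys l θ r :=
  intervalIntegral.integral_nonneg (log_nonneg hb) fun r _ => sys_nonneg l θ r

theorem twist (hl : 0 < l) (h8 : l ≤ 1 / 8)
    (H : ∀ R ≥ 0, 4 * ∫ r in (0 : ℝ)..R, sys l θ r ≤ 2 * π * l * sinh R * cosh R) :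
    ∃ m : ℤ, |θ - 2 * π * m| < 5 * l := by
  by_contra hn
  have h1 : ∀ m : ℤ, 5 * l ≤ |θ - 2 * π * m| := fun m => not_lt.1 fun h => hn ⟨m, h⟩
  have p1 := mul_lt_mul_of_pos_left pi_lt_d2 hl
  have red : ∀ (c : ℝ) (j : ℤ), (∀ m : ℤ, c ≤ |j * θ - 2 * π * m|) → ∀ m n : ℤ, |n| = j →
      c ≤ |2 * π * m + n * θ| := fun c j h m n hj => by
    rcases abs_choice n with e | e
    · have := h (-m)
      rw [← hj, e] at this
      exact this.trans_eq (congrArg abs (by push_cast; ring))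
    · have := h m
      rw [← hj, e, abs_sub_comm] at this
      exact this.trans_eq (congrArg abs (by push_cast; ring))
  by_cases h2 : ∀ m : ℤ, 5 * l ≤ |2 * θ - 2 * π * m|
  · have hθ : ∀ m n : ℤ, n ≠ 0 → |n| < 3 → 5 * l ≤ |2 * π * m + n * θ| := fun m n h3 h4 => by
      have := Int.one_le_abs h3
      by_cases h5 : |n| = 1
      · exact red _ 1 (by simpa using h1) m n h5
      · exact red _ 2 (by simpa using h2) m n (by omega)
    have a1 := piece hl h8 (by norm_num) hθ (x := 51 / 50) (y := 5 / 4) (a := 4 / 5) (b := 3)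
      (by norm_num) (by norm_num) (by norm_num) (by norm_num) fun S C s1 s2 s0 c1 c2 c3 => by
        norm_num at s1 s2 ⊢
        exact ⟨by linarith, by nlinarith [sq_nonneg (3 * C - 20 * S)], by linarith⟩
    have a2 := piece hl h8 (by norm_num) hθ (x := 5 / 4) (y := 21 / 11) (a := 8 / 17) (b := 75 / 17)
      (by norm_num) (by norm_num) (by norm_num) (by norm_num) fun S C s1 s2 s0 c1 c2 c3 => by
        norm_num at s1 s2 ⊢
        have : 75 * S ≤ 43 * C :=
          (le_abs_self _).trans (abs_le_of_sq_le_sq (by nlinarith) (by linarith))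
        exact ⟨by linarith, by nlinarith [sq_nonneg (15 * C - 40 * S)], by linarith⟩
    have a3 := piece hl h8 (by norm_num) hθ (x := 21 / 11) (y := 11 / 5) (a := 3) (b := 0)
      (by norm_num) (by norm_num) (by norm_num) (by norm_num) fun S C s1 s2 s0 c1 c2 c3 => by
        norm_num at s1 s2 ⊢
        exact ⟨by linarith, by nlinarith⟩
    have a0 := first l θ (b := 51 / 50) (by norm_num)
    have := H (log (11 / 5)) (log_nonneg (by norm_num))
    rw [split l θ _ (log (51 / 50)), split l θ (log (51 / 50)) (log (5 / 4)),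
      split l θ (log (5 / 4)) (log (21 / 11)), sinh_log (by norm_num), cosh_log (by norm_num)]
      at this
    norm_num at a1 a2 a3 this
    linarith
  · obtain ⟨j, hj⟩ := not_forall.1 h2
    have h3 := abs_lt.1 (not_le.1 hj)
    have h4 : ∀ m : ℤ, 22 * l ≤ |θ - 2 * π * m| := fun m => by
      have p2 := pi_gt_d2
      rcases lt_trichotomy j (2 * m) with h | h | h
      · have : (j : ℝ) + 1 ≤ 2 * m := by exact_mod_cast h
        exact le_abs.2 (Or.inr (by nlinarith))
      · have e : (j : ℝ) = 2 * m := by exact_mod_cast h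
        rw [e] at h3
        exact absurd (h1 m) (not_le.2 (abs_lt.2 ⟨by linarith, by linarith⟩))
      · have : 2 * (m : ℝ) + 1 ≤ j := by exact_mod_cast h
        exact le_abs.2 (Or.inl (by nlinarith))
    have hθ : ∀ m n : ℤ, n ≠ 0 → |n| < 2 → 22 * l ≤ |2 * π * m + n * θ| := fun m n h3 h5 => by
      have := Int.one_le_abs h3
      exact red _ 1 (by simpa using h4) m n (by omega)
    have a1 := piece hl h8 (by norm_num) hθ (x := 1) (y := 12 / 11) (a := 0) (b := 22)
      (by norm_num) (by norm_num) (by norm_num) (by norm_num) fun S C s1 s2 s0 c1 c2 c3 => by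
        norm_num at s1 s2 ⊢
        exact ⟨by linarith, by positivity, by linarith⟩
    have a2 := piece hl h8 (by norm_num) hθ (x := 12 / 11) (y := 3 / 2) (a := 2) (b := 0)
      (by norm_num) (by norm_num) (by norm_num) (by norm_num) fun S C s1 s2 s0 c1 c2 c3 => by
        norm_num at s1 s2 ⊢
        exact ⟨by linarith, by nlinarith⟩
    have := H (log (3 / 2)) (log_nonneg (by norm_num))
    rw [split l θ _ (log (12 / 11)), sinh_log (by norm_num), cosh_log (by norm_num)] at this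
    norm_num at a1 a2 this
    linarith

theorem twist' (hl : 0 < l)
    (H : ∀ R ≥ 0, 4 * ∫ r in (0 : ℝ)..R, sys l θ r ≤ 2 * (2 * π * l * sinh R * cosh R)) :
    |θ| < 12 * l ∨ 1 < |θ| := by
  by_contra hn
  obtain ⟨h1, h2⟩ := not_or.1 hn
  rw [not_lt] at h1 h2
  have h8 : l ≤ 1 / 8 := by linarith
  have p1 := mul_lt_mul_of_pos_left pi_lt_d2 hl
  have hθ : ∀ m n : ℤ, n ≠ 0 → |n| < 6 → 12 * l ≤ |2 * π * m + n * θ| := fun m n h3 h4 => by
    have h5 : (1 : ℝ) ≤ |(n : ℝ)| := by exact_mod_cast Int.one_le_abs h3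
    have h6 : |(n : ℝ)| ≤ 5 := by exact_mod_cast (by omega : |n| ≤ 5)
    by_cases hm : m = 0
    · rw [hm, Int.cast_zero, mul_zero, zero_add, abs_mul]
      nlinarith
    · have h7 : (1 : ℝ) ≤ |(m : ℝ)| := by exact_mod_cast Int.one_le_abs hm
      have h9 := abs_sub (2 * π * m + n * θ) (n * θ)
      rw [add_sub_cancel_right, abs_mul, abs_mul (n : ℝ), abs_of_pos two_pi_pos] at h9
      nlinarith [pi_gt_d2, abs_nonneg θ]
  have a1 := piece hl h8 (by norm_num) hθ (x := 51 / 50) (y := 19 / 11) (a := 5 / 13)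
    (b := 144 / 13)
    (by norm_num) (by norm_num) (by norm_num) (by norm_num) fun S C s1 s2 s0 c1 c2 c3 => by
      norm_num at s1 s2 ⊢
      have : 144 * S ≤ 73 * C :=
        (le_abs_self _).trans (abs_le_of_sq_le_sq (by nlinarith) (by linarith))
      exact ⟨by linarith, by nlinarith [sq_nonneg (12 * C - 60 * S)], by linarith⟩
  have a2 := piece hl h8 (by norm_num) hθ (x := 19 / 11) (y := 11 / 5) (a := 6) (b := 0)
    (by norm_num) (by norm_num) (by norm_num) (by norm_num) fun S C s1 s2 s0 c1 c2 c3 => by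
      norm_num at s1 s2 ⊢
      exact ⟨by linarith, by nlinarith⟩
  have a0 := first l θ (b := 51 / 50) (by norm_num)
  have := H (log (11 / 5)) (log_nonneg (by norm_num))
  rw [split l θ _ (log (51 / 50)), split l θ (log (51 / 50)) (log (19 / 11)),
    sinh_log (by norm_num), cosh_log (by norm_num)] at this
  norm_num at a1 a2 this
  linarith

variable (ht : ContDiffOn ℝ 2 t H3) (h0 : ∀ p ∈ H3, fderiv ℝ t p ≠ 0) (hl : 0 < l)
  (hi : ∀ p ∈ H3, t (lox l θ p) = t p)
include ht h0 hl hi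

theorem total {R : ℝ} (hR : 0 ≤ R) :
    ∫ r in (0 : ℝ)..R, ∫ z in (0 : ℝ)..l, ∫ φ in (0 : ℝ)..2 * π,
      mc t (fermi r φ z) * (sinh r * cosh r) ≤ 2 * π * l * sinh R * cosh R := by
  have hp : ∀ r, Per fun x => t (Ps l θ (r, x)) := fun r => per_of_gen
    (fun x => congrArg (fun p : H3 => t p) (tor_one l θ r x))
    fun x => (congrArg t (Ps_lox r x)).trans (hi _ (Ps_mem _))
  have hc := fun r => conv (θ := θ) hl (F := fun p => mc t p * (sinh r * cosh r))
    ((mc_cont ht h0).mul continuousOn_const) r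
  have h := flux_le ht h0 hl hp (χ := fun _ => 1 / 2) contDiff_const (fun _ => by norm_num) hR
  simp only [deriv_const, zero_mul, zero_add, Mn_mul, intervalIntegral.integral_const_mul] at h
  simp only [hc, intervalIntegral.integral_const_mul]
  nlinarith [mul_pos pi_pos hl]

end Pool.Agent.Lib.MP_b6ada6_gt
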