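import Mathlib

/-! Level surfaces in the upper half space model of hyperbolic space. -/

noncomputable section

namespace Pool.Agent.Lib.MP_b6ada6_gt

open Real

/-- The upper half space. -/
def H3 : Set (Fin 3 → ℝ) := {p | 0 < p 2}

/-- Derivative in the direction of the `i`-th coordinate. -/
def pd (f : (Fin 3 → ℝ) → ℝ) (i : Fin 3) (p : Fin 3 → ℝ) : ℝ := fderiv ℝ f p (Pi.single i 1)

/-- The `i`-th coordinate of the Euclidean unit normal of the level surfaces of `t`. -/
def nu (t : (Fin 3 → ℝ) → ℝ) (i : Fin 3) (p : Fin 3 → ℝ) : ℝ := pd t i p / √(∑ j, pd t j p ^ 2)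

/-- The hyperbolic divergence of the hyperbolic unit normal: the sum of the principal curvatures
of the level surface of `t` through `p`. -/
def mc (t : (Fin 3 → ℝ) → ℝ) (p : Fin 3 → ℝ) : ℝ := p 2 * ∑ i, pd (nu t i) i p - 2 * nu t 2 p

/-- The loxodromic isometry with the vertical axis, translation length `l` and rotation angle
`θ`. -/
def lox (l θ : ℝ) (p : Fin 3 → ℝ) : Fin 3 → ℝ :=
  exp l • ![cos θ * p 0 - sin θ * p 1, sin θ * p 0 + cos θ * p 1, p 2]

/-- The point with cylinder coordinates `r` (distance from the vertical axis), `φ` (angle) and `z`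
(position of the nearest point of the axis). -/
def fermi (r φ z : ℝ) : Fin 3 → ℝ := exp z • ![tanh r * cos φ, tanh r * sin φ, 1 / cosh r]

/-- The length of the shortest closed geodesic of the flat torus at distance `r` from the core. -/
def sys (l θ r : ℝ) : ℝ := ⨅ k : {k : ℤ × ℤ // k ≠ 0},
  √((k.1.2 * l * cosh r) ^ 2 + ((2 * π * k.1.1 + k.1.2 * θ) * sinh r) ^ 2)

end Pool.Agent.Lib.MP_b6ada6_gt
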