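import Pool.Agent.Lib.MP_b6ada6_gt.Ess

/-! The mean of a periodic function. -/

noncomputable section

namespace Pool.Agent.Lib.MP_b6ada6_gt

open Set Real Filter Topology MeasureTheory

/-- integral over the unit square -/
def Mn (F : ℝ × ℝ → ℝ) : ℝ := ∫ x in Icc ((0, 0) : ℝ × ℝ) (1, 1), F x

theorem Mn_int {F : ℝ × ℝ → ℝ} (hF : Continuous F) :
    IntegrableOn F (Icc ((0, 0) : ℝ × ℝ) (1, 1)) := hF.continuousOn.integrableOn_compact isCompact_Icc

theorem Mn_iter {F : ℝ × ℝ → ℝ} (hF : Continuous F) :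
    Mn F = ∫ b in (0 : ℝ)..1, ∫ a in (0 : ℝ)..1, F (a, b) := by
  have h := Mn_int hF
  rw [Icc_prod_eq, IntegrableOn, Measure.volume_eq_prod, ← Measure.prod_restrict] at h
  rw [Mn, Icc_prod_eq, Measure.volume_eq_prod, ← Measure.prod_restrict, integral_prod_symm _ h]
  simp only [intervalIntegral.integral_of_le zero_le_one, integral_Icc_eq_integral_Ioc]

theorem Mn_const (c : ℝ) : Mn (fun _ => c) = c := by
  rw [Mn_iter continuous_const]
  simp

theorem Mn_mono {F G : ℝ × ℝ → ℝ} (hF : Continuous F) (hG : Continuous G) (h : ∀ x, F x ≤ G x) :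
    Mn F ≤ Mn G := integral_mono (Mn_int hF) (Mn_int hG) h

theorem Mn_add {F G : ℝ × ℝ → ℝ} (hF : Continuous F) (hG : Continuous G) :
    Mn (fun x => F x + G x) = Mn F + Mn G := integral_add (Mn_int hF) (Mn_int hG)

theorem Mn_mul (c : ℝ) (F : ℝ × ℝ → ℝ) : Mn (fun x => c * F x) = c * Mn F := integral_const_mul _ _

theorem Mn_cont {H : ℝ → ℝ × ℝ → ℝ} (hH : Continuous H.uncurry) : Continuous fun y => Mn (H y) :=
  continuous_parametric_integral_of_continuous hH isCompact_Icc

theorem Mn_swap {H : ℝ → ℝ × ℝ → ℝ} (hH : Continuous H.uncurry) (a b : ℝ) :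
    ∫ y in a..b, Mn (H y) = Mn fun x => ∫ y in a..b, H y x := by
  refine intervalIntegral_integral_swap ?_
  rw [Measure.prod_restrict]
  exact (hH.continuousOn.integrableOn_compact (isCompact_uIcc.prod isCompact_Icc)).mono_set
    (prod_mono uIoc_subset_uIcc le_rfl)

theorem Mn_shift {F : ℝ × ℝ → ℝ} (hF : Continuous F) (hp : Per F) (a : ℝ × ℝ) :
    Mn (fun x => F (x + a)) = Mn F := by
  rw [Mn_iter hF, Mn_iter (by fun_prop)]
  have h1 : ∀ b, ∫ s in (0 : ℝ)..1, F ((s, b) + a) = ∫ s in (0 : ℝ)..1, F (s, b + a.2) := fun b => by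
    have p : Function.Periodic (fun s => F (s, b + a.2)) 1 := fun s => by
      simpa [iv] using hp (s, b + a.2) (1, 0)
    have := intervalIntegral.integral_comp_add_right (a := 0) (b := 1) (fun s => F (s, b + a.2)) a.1
    rw [zero_add, add_comm 1, p.intervalIntegral_add_eq a.1 0, zero_add] at this
    exact this
  have p : Function.Periodic (fun b => ∫ s in (0 : ℝ)..1, F (s, b)) 1 := fun b => by
    refine intervalIntegral.integral_congr fun s _ => ?_
    simpa [iv] using hp (s, b) (0, 1)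
  have := intervalIntegral.integral_comp_add_right (a := 0) (b := 1)
    (fun b => ∫ s in (0 : ℝ)..1, F (s, b)) a.2
  rw [zero_add, add_comm 1, p.intervalIntegral_add_eq a.2 0, zero_add] at this
  simp only [h1, this]

/-- `g` is the derivative of `f` in the direction `n` -/
def Dir (f g : ℝ × ℝ → ℝ) (n : ℝ × ℝ) : Prop :=
  ∀ x, HasDerivAt (fun s : ℝ => f (x + s • n)) (g x) 0

theorem Dir.at {f g : ℝ × ℝ → ℝ} {n : ℝ × ℝ} (h : Dir f g n) (x : ℝ × ℝ) (s : ℝ) :
    HasDerivAt (fun s : ℝ => f (x + s • n)) (g (x + s • n)) s := by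
  have h1 : HasDerivAt (fun u : ℝ => f (x + s • n + u • n)) (g (x + s • n)) (s - s) := by
    rw [sub_self]
    exact h _
  refine (h1.comp_sub_const s s).congr_of_eventuallyEq (Eventually.of_forall fun u => ?_)
  simp only [sub_smul, add_add_sub_cancel]

theorem Dir.per {f g : ℝ × ℝ → ℝ} {n : ℝ × ℝ} (h : Dir f g n) (hp : Per f) : Per g := fun x k => by
  refine (h (x + iv k)).unique ?_
  simp only [add_right_comm _ (iv k), hp _ k]
  exact h x

theorem Mn_line {g : ℝ × ℝ → ℝ} (hg : Continuous g) (hp : Per g) (n : ℝ × ℝ) (T : ℝ) :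
    Mn (fun x => ∫ s in (0 : ℝ)..T, g (x + s • n)) = T * Mn g := by
  rw [← Mn_swap (H := fun s x => g (x + s • n)) (by fun_prop)]
  simp only [Mn_shift hg hp]
  simp

theorem Dir.mean {f g : ℝ × ℝ → ℝ} {n : ℝ × ℝ} (h : Dir f g n) (hf : Continuous f)
    (hg : Continuous g) (hp : Per f) : Mn g = 0 := by
  have h1 := Mn_line hg (h.per hp) n 1
  have h2 : ∀ x, ∫ s in (0 : ℝ)..1, g (x + s • n) = f (x + n) + -1 * f x := fun x => by
    rw [intervalIntegral.integral_eq_sub_of_hasDerivAt (fun s _ => h.at x s)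
      (Continuous.intervalIntegrable (by fun_prop) _ _)]
    simp [sub_eq_add_neg]
  simp only [h2] at h1
  rw [Mn_add (by fun_prop) (by fun_prop), Mn_mul, Mn_shift hf hp] at h1
  linarith

end Pool.Agent.Lib.MP_b6ada6_gt
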