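import Pool.Agent.Lib.MP_b6ada6_gt.Coord
import Pool.Agent.Lib.MP_b6ada6_gt.Mean

/-! The divergence theorem on a tube. -/

noncomputable section

namespace Pool.Agent.Lib.MP_b6ada6_gt

open Set Filter Topology Real MeasureTheory

variable {l θ : ℝ} {t : (Fin 3 → ℝ) → ℝ} {W X Y Z : ℝ × ℝ × ℝ → ℝ}

theorem fd_cont (hW : ContDiff ℝ 1 W) (v : ℝ × ℝ × ℝ) : Continuous fun q => fderiv ℝ W q v :=
  (hW.continuous_fderiv one_ne_zero).clm_apply continuous_const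

theorem Mn_cont' (hW : Continuous W) : Continuous fun r => Mn fun x => W (r, x) :=
  Mn_cont (H := fun r x => W (r, x)) hW

theorem dir_of (hW : ContDiff ℝ 1 W) (r : ℝ) (n : ℝ × ℝ) :
    Dir (fun x => W (r, x)) (fun x => fderiv ℝ W (r, x) (0, n)) n := fun x => by
  have : HasDerivAt _ _ _ := (hW.differentiable one_ne_zero (r, x)).hasFDerivAt.hasLineDerivAt (0, n)
  simpa using this

theorem flux (hX : ContDiff ℝ 1 X) (hY : ContDiff ℝ 1 Y) (hZ : ContDiff ℝ 1 Z)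
    (pY : ∀ r > 0, Per fun x => Y (r, x)) (pZ : ∀ r > 0, Per fun x => Z (r, x)) (n m : ℝ × ℝ)
    {R : ℝ} (hR : 0 ≤ R) :
    ∫ r in (0 : ℝ)..R, Mn (fun x => fderiv ℝ X (r, x) (1, 0) + fderiv ℝ Y (r, x) (0, n) +
      fderiv ℝ Z (r, x) (0, m)) = Mn fun x => X (R, x) - X (0, x) := by
  have c1 := fd_cont hX (1, 0)
  have c2 := fd_cont hY (0, n)
  have c3 := fd_cont hZ (0, m)
  have d2 := hY.continuous
  have d3 := hZ.continuous
  rw [intervalIntegral.integral_congr_ae (g := fun r => Mn fun x => fderiv ℝ X (r, x) (1, 0))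
    (ae_of_all _ fun r hr => ?_), Mn_swap (H := fun r x => fderiv ℝ X (r, x) (1, 0)) c1]
  · congr 1
    funext x
    exact intervalIntegral.integral_eq_sub_of_hasDerivAt (f := fun r => X (r, x))
      (fun r _ => (hX.differentiable one_ne_zero (r, x)).hasFDerivAt.comp_hasDerivAt r
        ((hasDerivAt_id r).prodMk (hasDerivAt_const r x)))
      (Continuous.intervalIntegrable (by fun_prop) _ _)
  · rw [uIoc_of_le hR] at hr
    rw [Mn_add (by fun_prop) (by fun_prop), Mn_add (by fun_prop) (by fun_prop),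
      (dir_of hY r n).mean (by fun_prop) (by fun_prop) (pY r hr.1),
      (dir_of hZ r m).mean (by fun_prop) (by fun_prop) (pZ r hr.1), add_zero, add_zero]

/-- hyperbolic length of the gradient -/
def Gg (t : (Fin 3 → ℝ) → ℝ) (l θ : ℝ) (q : ℝ × ℝ × ℝ) : ℝ :=
  exp (l * q.2.2) / cosh q.1 * √(∑ j, pd t j (Ps l θ q) ^ 2)

/-- radial part of the normal -/
def yA (t : (Fin 3 → ℝ) → ℝ) (l θ : ℝ) (q : ℝ × ℝ × ℝ) : ℝ :=
  cos (an θ q.2) * nu t 0 (Ps l θ q) + sin (an θ q.2) * nu t 1 (Ps l θ q) -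
    sinh q.1 * nu t 2 (Ps l θ q)

/-- angular part of the normal -/
def yB (t : (Fin 3 → ℝ) → ℝ) (l θ : ℝ) (q : ℝ × ℝ × ℝ) : ℝ :=
  cos (an θ q.2) * nu t 1 (Ps l θ q) - sin (an θ q.2) * nu t 0 (Ps l θ q)

/-- axial part of the normal -/
def yD (t : (Fin 3 → ℝ) → ℝ) (l θ : ℝ) (q : ℝ × ℝ × ℝ) : ℝ :=
  sinh q.1 * (cos (an θ q.2) * nu t 0 (Ps l θ q) + sin (an θ q.2) * nu t 1 (Ps l θ q)) +
    nu t 2 (Ps l θ q)

variable (ht : ContDiffOn ℝ 2 t H3) (h0 : ∀ p ∈ H3, fderiv ℝ t p ≠ 0)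
include h0

theorem Gg_pos (q : ℝ × ℝ × ℝ) : 0 < Gg t l θ q :=
  mul_pos (div_pos (exp_pos _) (cosh_pos _)) (sqrt_pos.2 (gn_pos (h0 _ (Ps_mem q))))

theorem nrm (q : ℝ × ℝ × ℝ) :
    yA t l θ q ^ 2 + cosh q.1 ^ 2 * yB t l θ q ^ 2 + yD t l θ q ^ 2 = cosh q.1 ^ 2 := by
  have h := gn_pos (h0 _ (Ps_mem (l := l) (θ := θ) q))
  have e : nu t 0 (Ps l θ q) ^ 2 + nu t 1 (Ps l θ q) ^ 2 + nu t 2 (Ps l θ q) ^ 2 = 1 := by
    simp only [nu, div_pow, sq_sqrt h.le]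
    rw [← add_div, ← add_div, ← Fin.sum_univ_three fun j => pd t j (Ps l θ q) ^ 2, div_self h.ne']
  simp only [yA, yB, yD, cosh_sq]
  linear_combination (sinh q.1 ^ 2 + 1) * e + (sinh q.1 ^ 2 + 1) *
    (nu t 0 (Ps l θ q) ^ 2 + nu t 1 (Ps l θ q) ^ 2) * sin_sq_add_cos_sq (an θ q.2)

include ht

theorem Gg_cont : Continuous (Gg t l θ) :=
  (Continuous.div (by fun_prop) (by fun_prop) fun q => (cosh_pos _).ne').mul
    (comp0 (gn_smooth ht h0).continuousOn)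

theorem du (q v : ℝ × ℝ × ℝ) : fderiv ℝ (fun q => t (Ps l θ q)) q v = Gg t l θ q *
    (yA t l θ q / cosh q.1 * v.1 + sinh q.1 * yB t l θ q * an θ v.2 + yD t l θ q * (l * v.2.2)) := by
  have h := (sqrt_pos.2 (gn_pos (h0 _ (Ps_mem (l := l) (θ := θ) q)))).ne'
  have hc := (cosh_pos q.1).ne'
  rw [chain (ht.of_le one_le_two)]
  simp only [Gg, yA, yB, yD, nu]
  field_simp
  ring

theorem y_smooth : ContDiff ℝ 1 (yA t l θ) ∧ ContDiff ℝ 1 (yB t l θ) ∧ ContDiff ℝ 1 (yD t l θ) := by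
  have hN := fun i => comp1 (l := l) (θ := θ) (nu_smooth ht h0 i)
  have ha := (an_smooth (θ := θ)).of_le one_le_two
  exact ⟨((ha.cos.mul (hN 0)).add (ha.sin.mul (hN 1))).sub (contDiff_fst.sinh.mul (hN 2)),
    (ha.cos.mul (hN 1)).sub (ha.sin.mul (hN 0)),
    (contDiff_fst.sinh.mul ((ha.cos.mul (hN 0)).add (ha.sin.mul (hN 1)))).add (hN 2)⟩

theorem y_per (hl : 0 < l) (hp : ∀ r, Per fun x => t (Ps l θ (r, x))) {r : ℝ} (hr : 0 < r) :
    (Per fun x => yB t l θ (r, x)) ∧ Per fun x => yD t l θ (r, x) := by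
  have key : ∀ x k, yB t l θ (r, x + iv k) = yB t l θ (r, x) ∧
      yD t l θ (r, x + iv k) = yD t l θ (r, x) := fun x k => by
    have e : fderiv ℝ (fun q => t (Ps l θ q)) (r, x + iv k) =
        fderiv ℝ (fun q => t (Ps l θ q)) (r, x) := by
      rw [show (r, x + iv k) = (r, x) + (0, iv k) by simp, ← fderiv_comp_add_right]
      congr 1
      funext q
      exact (congrArg (fun y => t (Ps l θ (y, q.2 + iv k))) (add_zero _)).trans (hp q.1 q.2 k)
    have e' := fun v => (du (l := l) (θ := θ) ht h0 (r, x + iv k) v).symm.trans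
      ((DFunLike.congr_fun e v).trans (du ht h0 (r, x) v))
    have e1 := e' (cosh r, 0)
    have e2 := e' (0, (2 * π * sinh r)⁻¹, 0)
    have e3 := e' (0, -θ / (2 * π * l), l⁻¹)
    have hs := (sinh_pos_iff.2 hr).ne'
    have hc := cosh_pos r
    have hπ := pi_pos.ne'
    have a1 : an θ 0 = 0 := by simp [an]
    have a2 : an θ ((2 * π * sinh r)⁻¹, 0) = (sinh r)⁻¹ := by
      simp only [an]
      field_simp
      ring
    have a3 : an θ (-θ / (2 * π * l), l⁻¹) = 0 := by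
      simp only [an]
      field_simp
      ring
    simp only [a1, a2, a3, mul_zero, add_zero, zero_add, Prod.snd_zero, div_mul_cancel₀ _ hc.ne',
      mul_inv_cancel₀ hl.ne', mul_one, mul_right_comm (sinh r), mul_inv_cancel₀ hs, one_mul,
      zero_mul] at e1 e2 e3
    have n1 := nrm (l := l) (θ := θ) h0 (r, x + iv k)
    have n2 := nrm (l := l) (θ := θ) h0 (r, x)
    have g1 := Gg_pos (l := l) (θ := θ) h0 (r, x + iv k)
    have g2 := Gg_pos (l := l) (θ := θ) h0 (r, x)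
    have eg : Gg t l θ (r, x + iv k) = Gg t l θ (r, x) := by
      refine (pow_left_inj₀ g1.le g2.le two_ne_zero).1 (mul_left_cancel₀ (pow_pos hc 2).ne' ?_)
      simp only at n1 n2
      linear_combination Gg t l θ (r, x) ^ 2 * n2 - Gg t l θ (r, x + iv k) ^ 2 * n1 +
        (Gg t l θ (r, x + iv k) * yA t l θ (r, x + iv k) + Gg t l θ (r, x) * yA t l θ (r, x)) * e1 +
        cosh r ^ 2 * (Gg t l θ (r, x + iv k) * yB t l θ (r, x + iv k) +
          Gg t l θ (r, x) * yB t l θ (r, x)) * e2 +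
        (Gg t l θ (r, x + iv k) * yD t l θ (r, x + iv k) + Gg t l θ (r, x) * yD t l θ (r, x)) * e3
    rw [eg] at e2 e3
    exact ⟨mul_left_cancel₀ g2.ne' e2, mul_left_cancel₀ g2.ne' e3⟩
  exact ⟨fun x k => (key x k).1, fun x k => (key x k).2⟩

theorem div_id {χ : ℝ → ℝ} (hχ : ContDiff ℝ 1 χ) {n m : ℝ × ℝ} (n1 : an θ n = 1) (n2 : n.2 = 0)
    (m1 : an θ m = 0) (m2 : l * m.2 = 1) (q : ℝ × ℝ × ℝ) :
    fderiv ℝ (fun q => χ (t (Ps l θ q)) * (sinh q.1 * yA t l θ q)) q (1, 0) +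
      fderiv ℝ (fun q => χ (t (Ps l θ q)) * (cosh q.1 * yB t l θ q)) q (0, n) +
      fderiv ℝ (fun q => χ (t (Ps l θ q)) * (sinh q.1 * (cosh q.1)⁻¹ * yD t l θ q)) q (0, m) =
      deriv χ (t (Ps l θ q)) * (sinh q.1 * cosh q.1 * Gg t l θ q) +
        χ (t (Ps l θ q)) * (mc t (Ps l θ q) * (sinh q.1 * cosh q.1)) := by
  have hc := (cosh_pos q.1).ne'
  have hN := fun i => ((comp1 (l := l) (θ := θ) (nu_smooth ht h0 i)).differentiable one_ne_zero
    q).hasFDerivAt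
  have hw := (hχ.differentiable one_ne_zero _).hasDerivAt.comp_hasFDerivAt q
    ((comp1 (l := l) (θ := θ) (ht.of_le one_le_two)).differentiable one_ne_zero q).hasFDerivAt
  have hr : HasFDerivAt (fun q : ℝ × ℝ × ℝ => q.1) _ q := hasFDerivAt_fst (𝕜 := ℝ)
  have hx : HasFDerivAt (fun q : ℝ × ℝ × ℝ => q.2) _ q := hasFDerivAt_snd (𝕜 := ℝ)
  have ha : HasFDerivAt (fun q : ℝ × ℝ × ℝ => an θ q.2) _ q :=
    (hx.fst.const_mul (2 * π)).add (hx.snd.const_mul θ)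
  have hA := (ha.cos.mul (hN 0)).add (ha.sin.mul (hN 1))
  have e1 : fderiv ℝ (fun q => χ (t (Ps l θ q)) * (sinh q.1 * yA t l θ q)) q = _ :=
    (hw.mul (hr.sinh.mul (hA.sub (hr.sinh.mul (hN 2))))).fderiv
  have e2 : fderiv ℝ (fun q => χ (t (Ps l θ q)) * (cosh q.1 * yB t l θ q)) q = _ :=
    (hw.mul (hr.cosh.mul ((ha.cos.mul (hN 1)).sub (ha.sin.mul (hN 0))))).fderiv
  have e3 : fderiv ℝ (fun q => χ (t (Ps l θ q)) * (sinh q.1 * (cosh q.1)⁻¹ * yD t l θ q)) q = _ :=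
    (hw.mul ((hr.sinh.mul ((hasDerivAt_inv hc).comp_hasFDerivAt q hr.cosh)).mul
      ((hr.sinh.mul hA).add (hN 2)))).fderiv
  have a1 : an θ 0 = 0 := by simp [an]
  have n1' : 2 * π * n.1 + θ * n.2 = 1 := n1
  have m1' : 2 * π * m.1 + θ * m.2 = 0 := m1
  have p2 : Ps l θ q 2 = exp (l * q.2.2) / cosh q.1 := by simp [Ps, fermi, div_eq_mul_inv]
  have nr := nrm (l := l) (θ := θ) h0 q
  rw [e1, e2, e3]
  simp only [add_apply, sub_apply, smul_apply, ContinuousLinearMap.comp_apply, ContinuousLinearMap.coe_fst',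
    ContinuousLinearMap.coe_snd', smul_eq_mul, du ht h0, chain (nu_smooth ht h0 _), a1, n1, m1, m2,
    n1', m1', Pi.mul_apply, Pi.add_apply, Pi.sub_apply, Function.comp, mc, p2, Fin.sum_univ_three,
    Prod.fst_zero, Prod.snd_zero]
  simp only [n2, yA, yB, yD] at nr ⊢
  field_simp
  linear_combination cosh q.1 ^ 2 * sinh q.1 * deriv χ (t (Ps l θ q)) * Gg t l θ q * nr +
    cosh q.1 * χ (t (Ps l θ q)) * sinh q.1 * exp (l * q.2.2) *
      (cosh q.1 ^ 2 * (pd (nu t 0) 0 (Ps l θ q) + pd (nu t 1) 1 (Ps l θ q)) *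
        sin_sq_add_cos_sq (an θ q.2) -
      (cos (an θ q.2) * sin (an θ q.2) * (pd (nu t 0) 1 (Ps l θ q) + pd (nu t 1) 0 (Ps l θ q)) +
        cos (an θ q.2) ^ 2 * pd (nu t 0) 0 (Ps l θ q) + sin (an θ q.2) ^ 2 * pd (nu t 1) 1 (Ps l θ q)
        + pd (nu t 2) 2 (Ps l θ q)) * cosh_sq q.1)

theorem flux_le (hl : 0 < l) (hp : ∀ r, Per fun x => t (Ps l θ (r, x))) {χ : ℝ → ℝ}
    (hχ : ContDiff ℝ 1 χ) (hb : ∀ s, |χ s| ≤ 1 / 2) {R : ℝ} (hR : 0 ≤ R) :
    ∫ r in (0 : ℝ)..R, Mn (fun x => deriv χ (t (Ps l θ (r, x))) *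
      (sinh r * cosh r * Gg t l θ (r, x)) + χ (t (Ps l θ (r, x))) *
        (mc t (Ps l θ (r, x)) * (sinh r * cosh r))) ≤ sinh R * cosh R / 2 := by
  have hπ := pi_pos.ne'
  obtain ⟨sA, sB, sD⟩ := y_smooth (l := l) (θ := θ) ht h0
  have hw : ContDiff ℝ 1 fun q => χ (t (Ps l θ q)) := hχ.comp (comp1 (ht.of_le one_le_two))
  have hX := hw.mul (contDiff_fst.sinh.mul sA)
  have F := flux (X := fun q => χ (t (Ps l θ q)) * (sinh q.1 * yA t l θ q))
    (Y := fun q => χ (t (Ps l θ q)) * (cosh q.1 * yB t l θ q))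
    (Z := fun q => χ (t (Ps l θ q)) * (sinh q.1 * (cosh q.1)⁻¹ * yD t l θ q))
    hX (hw.mul (contDiff_fst.cosh.mul sB))
    (hw.mul ((contDiff_fst.sinh.mul (contDiff_fst.cosh.inv fun q => (cosh_pos _).ne')).mul sD))
    (fun r hr x k => by simp only [hp r x k, (y_per ht h0 hl hp hr).1 x k])
    (fun r hr x k => by simp only [hp r x k, (y_per ht h0 hl hp hr).2 x k])
    ((2 * π)⁻¹, 0) (-θ / (2 * π * l), l⁻¹) hR
  have hd := div_id (l := l) (θ := θ) ht h0 hχ (n := ((2 * π)⁻¹, 0))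
    (m := (-θ / (2 * π * l), l⁻¹)) (by simp only [an]; field_simp; ring) rfl
    (by simp only [an]; field_simp; ring) (mul_inv_cancel₀ hl.ne')
  simp only [hd, sinh_zero, zero_mul, mul_zero, sub_zero] at F
  refine F.trans_le ((Mn_mono (hX.continuous.comp (f := fun x : ℝ × ℝ => (R, x)) (by fun_prop))
    continuous_const fun x => ?_).trans (Mn_const _).le)
  have hA : |yA t l θ (R, x)| ≤ cosh R := abs_le_of_sq_le_sq (by
    nlinarith [nrm (l := l) (θ := θ) h0 (R, x), sq_nonneg (cosh R * yB t l θ (R, x)),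
      sq_nonneg (yD t l θ (R, x))]) (cosh_pos R).le
  have hs := sinh_nonneg_iff.2 hR
  refine (le_abs_self _).trans ?_
  simp only [Function.comp]
  rw [abs_mul, abs_mul, abs_of_nonneg hs, mul_comm, div_eq_mul_one_div]
  exact mul_le_mul (mul_le_mul_of_nonneg_left hA hs) (hb _) (abs_nonneg _)
    (mul_nonneg hs (cosh_pos R).le)

theorem upper (hl : 0 < l) (hp : ∀ r, Per fun x => t (Ps l θ (r, x))) {χ : ℝ → ℝ}
    (hχ : ContDiff ℝ 1 χ) (hb : ∀ s, |χ s| ≤ 1 / 2) {R : ℝ} (hR : 0 ≤ R) :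
    ∫ r in (0 : ℝ)..R, Mn (fun x => deriv χ (t (Ps l θ (r, x))) *
      (sinh r * cosh r * Gg t l θ (r, x))) ≤ sinh R * cosh R / 2 +
      (∫ r in (0 : ℝ)..R, Mn fun x => |mc t (Ps l θ (r, x))| * (sinh r * cosh r)) / 2 := by
  have F := flux_le ht h0 hl hp hχ hb hR
  have cU := comp0 (l := l) (θ := θ) ht.continuousOn
  have cG := Gg_cont (l := l) (θ := θ) ht h0
  have cM := comp0 (l := l) (θ := θ) (mc_cont ht h0)
  have k1 : Continuous fun q : ℝ × ℝ × ℝ =>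
      deriv χ (t (Ps l θ q)) * (sinh q.1 * cosh q.1 * Gg t l θ q) :=
    ((hχ.continuous_deriv le_rfl).comp cU).mul (by fun_prop)
  have k2 : Continuous fun q : ℝ × ℝ × ℝ =>
      χ (t (Ps l θ q)) * (mc t (Ps l θ q) * (sinh q.1 * cosh q.1)) :=
    (hχ.continuous.comp cU).mul (cM.mul (by fun_prop))
  have k3 : Continuous fun q : ℝ × ℝ × ℝ => |mc t (Ps l θ q)| * (sinh q.1 * cosh q.1) := by fun_prop
  have sl : ∀ {H : ℝ × ℝ × ℝ → ℝ}, Continuous H → ∀ r, Continuous fun x => H (r, x) :=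
    fun h r => by fun_prop
  have b2 : ∫ r in (0 : ℝ)..R, -(1 / 2) * Mn (fun x => |mc t (Ps l θ (r, x))| * (sinh r * cosh r)) ≤
      ∫ r in (0 : ℝ)..R, Mn fun x =>
        χ (t (Ps l θ (r, x))) * (mc t (Ps l θ (r, x)) * (sinh r * cosh r)) := by
    refine intervalIntegral.integral_mono_on hR
      ((continuous_const.mul (Mn_cont' k3)).intervalIntegrable _ _)
      ((Mn_cont' k2).intervalIntegrable _ _) fun r hr => ?_
    rw [← Mn_mul]
    refine Mn_mono (continuous_const.mul (sl k3 r)) (sl k2 r) fun x => ?_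
    have hs := mul_nonneg (sinh_nonneg_iff.2 hr.1) (cosh_pos r).le
    refine le_trans ?_ (neg_abs_le _)
    rw [abs_mul, abs_mul, abs_of_nonneg hs, neg_mul, neg_le_neg_iff]
    exact mul_le_mul_of_nonneg_right (hb _) (mul_nonneg (abs_nonneg _) hs)
  rw [intervalIntegral.integral_const_mul] at b2
  simp only [fun r => Mn_add (sl k1 r) (sl k2 r)] at F
  rw [intervalIntegral.integral_add ((Mn_cont' k1).intervalIntegrable _ _)
    ((Mn_cont' k2).intervalIntegrable _ _)] at F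
  linarith

end Pool.Agent.Lib.MP_b6ada6_gt
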