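import Pool.Agent.Lib.MP_b6ada6_gt.PM

/-! Periodic subsets of the plane and essential loops. -/

noncomputable section

namespace Pool.Agent.Lib.MP_b6ada6_gt

open Set Real Filter Topology

/-- an integer vector -/
def iv (k : ℤ × ℤ) : ℝ × ℝ := (k.1, k.2)

/-- invariance under the integer lattice -/
def Per {β : Type} (f : ℝ × ℝ → β) : Prop := ∀ x k, f (x + iv k) = f x

/-- the image of `U` in the torus contains an essential loop -/
def Ess (U : Set (ℝ × ℝ)) : Prop := ∃ x k, k ≠ 0 ∧ JoinedIn U x (x + iv k)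

theorem iv_add (k m : ℤ × ℤ) : iv (k + m) = iv k + iv m := by simp [iv]

theorem iv_zero : iv 0 = 0 := by simp [iv]

theorem iv_neg (k : ℤ × ℤ) : iv (-k) = -iv k := by simp [iv]

theorem iv_zsmul (j : ℤ) (k : ℤ × ℤ) : iv (j • k) = (j : ℝ) • iv k := by simp [iv]

theorem iv_inj {k m : ℤ × ℤ} (h : iv k = iv m) : k = m := by
  simp only [iv, Prod.mk.injEq, Int.cast_inj] at h
  exact Prod.ext h.1 h.2

theorem Ess.mono {U V : Set (ℝ × ℝ)} (h : Ess U) (hUV : U ⊆ V) : Ess V := by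
  obtain ⟨x, k, hk, h⟩ := h
  exact ⟨x, k, hk, h.mono hUV⟩

theorem per_of_gen {β : Type} {f : ℝ × ℝ → β} (h1 : ∀ x, f (x + (1, 0)) = f x)
    (h2 : ∀ x, f (x + (0, 1)) = f x) : Per f := fun x k => by
  have p1 : Function.Periodic f (1, 0) := h1
  have p2 : Function.Periodic f (0, 1) := h2
  have e : iv k = k.1 • ((1, 0) : ℝ × ℝ) + k.2 • ((0, 1) : ℝ × ℝ) := by simp [iv]
  rw [e, ← add_assoc, p2.zsmul, p1.zsmul]

theorem reduce (x : ℝ × ℝ) : ∃ y ∈ Icc ((0, 0) : ℝ × ℝ) (1, 1), ∃ k, x = y + iv k := by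
  refine ⟨(Int.fract x.1, Int.fract x.2), ⟨⟨Int.fract_nonneg _, Int.fract_nonneg _⟩,
    (Int.fract_lt_one _).le, (Int.fract_lt_one _).le⟩, (⌊x.1⌋, ⌊x.2⌋), ?_⟩
  simp [iv]

theorem Per.bdd {f : ℝ × ℝ → ℝ} (hp : Per f) (hf : Continuous f) : ∃ C, ∀ x, |f x| ≤ C := by
  obtain ⟨C, hC⟩ := (isCompact_Icc (a := ((0, 0) : ℝ × ℝ)) (b := (1, 1))).exists_bound_of_continuousOn
    hf.continuousOn
  refine ⟨C, fun x => ?_⟩
  obtain ⟨y, hy, k, rfl⟩ := reduce x
  rw [hp]
  exact hC y hy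

theorem joined_map {U V : Set (ℝ × ℝ)} {F : ℝ × ℝ → ℝ × ℝ} (hF : Continuous F)
    (h : ∀ x ∈ U, F x ∈ V) {x y : ℝ × ℝ} (hj : JoinedIn U x y) : JoinedIn V (F x) (F y) := by
  obtain ⟨γ, hγ⟩ := hj
  exact ⟨γ.map hF, fun s => h _ (hγ s)⟩

theorem exists_k {U : Set (ℝ × ℝ)} (hU : IsOpen U) (hp : Per (· ∈ U)) (h : ¬ Ess U) :
    ∃ k : ℝ × ℝ → ℤ × ℤ, (∀ x m, k (x + iv m) = k x + m) ∧ ∀ x ∈ U, ∀ᶠ y in 𝓝 x, k y = k x := by
  let J : ℝ × ℝ → ℝ × ℝ → Prop := fun x y => x = y ∨ JoinedIn U x y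
  have Js : ∀ {x y}, J x y → J y x := fun h => h.imp Eq.symm JoinedIn.symm
  have Jt : ∀ {x y z}, J x y → J y z → J x z := by
    rintro x y z (rfl | h1) h2
    · exact h2
    · rcases h2 with rfl | h2
      · exact Or.inr h1
      · exact Or.inr (h1.trans h2)
  have Jm : ∀ {x y} m, J x y → J (x + iv m) (y + iv m) := by
    rintro x y m (rfl | h1)
    · exact Or.inl rfl
    · exact Or.inr (joined_map (F := (· + iv m)) (by fun_prop) (fun x hx => (hp x m).mpr hx) h1)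
  have Ju : ∀ {z x k m}, J (z + iv k) x → J (z + iv m) x → k = m := by
    intro z x k m h1 h2
    rcases Jt h1 (Js h2) with h3 | h3
    · exact iv_inj (add_left_cancel h3)
    · by_contra hc
      refine h ⟨z + iv k, m - k, sub_ne_zero.2 (Ne.symm hc), ?_⟩
      rwa [add_assoc, ← iv_add, add_sub_cancel]
  let s : Setoid (ℝ × ℝ) :=
    { r := fun x y => ∃ k, J (x + iv k) y
      iseqv :=
        { refl := fun x => ⟨0, Or.inl (by rw [iv_zero, add_zero])⟩
          symm := by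
            rintro x y ⟨k, hk⟩
            refine ⟨-k, ?_⟩
            have := Js (Jm (-k) hk)
            rwa [add_assoc, ← iv_add, add_neg_cancel, iv_zero, add_zero] at this
          trans := by
            rintro x y z ⟨k, hk⟩ ⟨m, hm⟩
            refine ⟨k + m, Jt ?_ hm⟩
            rw [iv_add, ← add_assoc]
            exact Jm m hk } }
  have hr : ∀ x, ∃ k, J ((Quotient.mk s x).out + iv k) x := fun x => Quotient.mk_out (s := s) x
  choose k hk using hr
  refine ⟨k, fun x m => ?_, fun x hx => ?_⟩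
  · have e : Quotient.mk s x = Quotient.mk s (x + iv m) := Quotient.sound ⟨m, Or.inl rfl⟩
    have h1 := Jm m (hk x)
    rw [add_assoc, ← iv_add, e] at h1
    exact Ju (hk _) h1
  · obtain ⟨ε, hε, hb⟩ := Metric.isOpen_iff.1 hU x hx
    filter_upwards [Metric.ball_mem_nhds x hε] with y hy
    have h1 : J x y := Or.inr (((convex_ball x ε).isPathConnected ⟨x, Metric.mem_ball_self hε⟩).joinedIn
      x (Metric.mem_ball_self hε) y hy |>.mono hb)
    have e : Quotient.mk s x = Quotient.mk s y :=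
      Quotient.sound ⟨0, by rwa [iv_zero, add_zero]⟩
    have h2 := Jt (hk x) h1
    rw [e] at h2
    exact Ju (hk y) h2

theorem Ess.curve {U : Set (ℝ × ℝ)} (hp : Per (· ∈ U)) (h : Ess U) :
    ∃ (c : ℝ → ℝ × ℝ) (k : ℤ × ℤ), k ≠ 0 ∧ Continuous c ∧ (∀ y, c y ∈ U) ∧
      ∀ y, c (y + 1) = c y + iv k := by
  obtain ⟨x, k, hk, γ, hγ⟩ := h
  let d : ℝ → ℝ × ℝ := fun s => γ.extend s - s • iv k
  have hd : Continuous d := by fun_prop
  have h1 : Continuous (d ∘ Int.fract : ℝ → ℝ × ℝ) :=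
    hd.continuousOn.comp_fract'' (by simp [d])
  refine ⟨fun y => d (Int.fract y) + y • iv k, k, hk, h1.add (by fun_prop), fun y => ?_,
    fun y => ?_⟩
  · have e : d (Int.fract y) + y • iv k = γ.extend (Int.fract y) + iv (⌊y⌋ • k) := by
      rw [iv_zsmul]
      simp only [d, Int.fract, sub_smul]
      abel
    change d (Int.fract y) + y • iv k ∈ U
    rw [e]
    refine (hp _ _).mpr ?_
    rw [Path.extend_apply γ ⟨Int.fract_nonneg _, (Int.fract_lt_one _).le⟩]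
    exact hγ _
  · simp only [Int.fract_add_one, add_smul, one_smul, add_assoc]

end Pool.Agent.Lib.MP_b6ada6_gt
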