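import Pool.Agent.Lib.MP_b6ada6_gt.Coord

/-! An invariant product foliation exists for every complex length. -/

noncomputable section

namespace Pool.Agent.Lib.MP_b6ada6_gt

open Set Filter Topology Real

/-- the two horizontal coordinates in a frame that turns along the axis -/
def ex (κ α : ℝ) (p : Fin 3 → ℝ) : ℝ := (cos (κ * zc p + α) * p 0 + sin (κ * zc p + α) * p 1) / p 2

/-- the inverse chart -/
def ey (κ : ℝ) (q : (ℝ × ℝ) × ℝ) : Fin 3 → ℝ := (exp q.1.1 / √(1 + q.2 ^ 2 + q.1.2 ^ 2)) •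
  ![cos (κ * q.1.1) * q.2 - sin (κ * q.1.1) * q.1.2, sin (κ * q.1.1) * q.2 + cos (κ * q.1.1) * q.1.2, 1]

theorem sq_pos3 {p : Fin 3 → ℝ} (hp : p ∈ H3) : 0 < p 0 ^ 2 + p 1 ^ 2 + p 2 ^ 2 := by
  have : 0 < p 2 := hp
  positivity

theorem zc_smooth : ContDiffOn ℝ 2 zc H3 :=
  (ContDiffOn.log (by fun_prop) fun p hp => (sq_pos3 hp).ne').div_const 2

theorem ex_smooth (κ α : ℝ) : ContDiffOn ℝ 2 (ex κ α) H3 := by
  have := zc_smooth
  exact ContDiffOn.div (by fun_prop) (by fun_prop) fun p hp => (hp : 0 < p 2).ne'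

theorem ey_smooth (κ : ℝ) : ContDiff ℝ 1 (ey κ) := by
  refine ContDiff.smul (ContDiff.div (by fun_prop) (ContDiff.sqrt (by fun_prop) fun q => ?_)
    fun q => ?_) (contDiff_pi.2 fun i => ?_)
  · positivity
  · positivity
  · fin_cases i <;> simp <;> fun_prop

theorem ey_mem (κ : ℝ) (q : (ℝ × ℝ) × ℝ) : ey κ q ∈ H3 := by
  simp only [H3, ey, mem_ofPred_eq]
  simp
  positivity

theorem zc_ey (κ : ℝ) (q : (ℝ × ℝ) × ℝ) : zc (ey κ q) = q.1.1 := by
  have h : 0 < 1 + q.2 ^ 2 + q.1.2 ^ 2 := by positivity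
  have e : ey κ q 0 ^ 2 + ey κ q 1 ^ 2 + ey κ q 2 ^ 2 = exp q.1.1 ^ 2 := by
    simp only [ey, Pi.smul_apply, smul_eq_mul, Matrix.cons_val, mul_pow, div_pow, sq_sqrt h.le]
    field_simp
    linear_combination (q.2 ^ 2 + q.1.2 ^ 2) * sin_sq_add_cos_sq (κ * q.1.1)
  rw [zc, e, log_pow, log_exp]
  ring

theorem ex_ey (κ α : ℝ) (q : (ℝ × ℝ) × ℝ) : ex κ α (ey κ q) = cos α * q.2 + sin α * q.1.2 := by
  have h : √(1 + q.2 ^ 2 + q.1.2 ^ 2) ≠ 0 := by positivity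
  rw [ex, zc_ey]
  simp only [ey, Pi.smul_apply, smul_eq_mul, Matrix.cons_val, cos_add, sin_add]
  field_simp
  linear_combination (cos α * q.2 + sin α * q.1.2) * sin_sq_add_cos_sq (κ * q.1.1)

theorem ey_ex (κ : ℝ) {p : Fin 3 → ℝ} (hp : p ∈ H3) :
    ey κ ((zc p, ex κ (π / 2) p), ex κ 0 p) = p := by
  have h2 : 0 < p 2 := hp
  have h := sq_pos3 hp
  have e1 : 1 + ex κ 0 p ^ 2 + ex κ (π / 2) p ^ 2 = (p 0 ^ 2 + p 1 ^ 2 + p 2 ^ 2) / p 2 ^ 2 := by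
    simp only [ex, add_zero, cos_add_pi_div_two, sin_add_pi_div_two]
    field_simp
    linear_combination (p 0 ^ 2 + p 1 ^ 2) * sin_sq_add_cos_sq (κ * zc p)
  have e2 : exp (zc p) = √(p 0 ^ 2 + p 1 ^ 2 + p 2 ^ 2) := by
    rw [zc, ← log_sqrt h.le, exp_log (sqrt_pos.2 h)]
  have e3 : exp (zc p) / √(1 + ex κ 0 p ^ 2 + ex κ (π / 2) p ^ 2) = p 2 := by
    have := (sqrt_pos.2 h).ne'
    rw [e1, e2, sqrt_div h.le, sqrt_sq h2.le]
    field_simp
  funext i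
  simp only [ey, e3]
  fin_cases i <;> simp [ex, cos_add_pi_div_two, sin_add_pi_div_two]
  · field_simp
    linear_combination p 0 * sin_sq_add_cos_sq (κ * zc p)
  · field_simp
    linear_combination p 1 * sin_sq_add_cos_sq (κ * zc p)

theorem exists_foliation (l θ : ℝ) (hl : 0 < l) : ∃ t : (Fin 3 → ℝ) → ℝ, ContDiffOn ℝ 2 t H3 ∧
    (∀ p ∈ H3, fderiv ℝ t p ≠ 0) ∧ (∀ p ∈ H3, t (lox l θ p) = t p) ∧
    ∃ Φ : H3 ≃ₜ (ℝ × ℝ) × ℝ, ∀ p : H3, (Φ p).2 = t p := by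
  have c : ∀ {f : (Fin 3 → ℝ) → ℝ}, ContDiffOn ℝ 2 f H3 → Continuous fun p : H3 => f p :=
    fun h => h.continuousOn.comp_continuous continuous_subtype_val Subtype.property
  refine ⟨ex (θ / l) 0, ex_smooth _ _, fun p hp e => ?_, fun p hp => ?_,
    ⟨⟨fun p => ((zc p, ex (θ / l) (π / 2) p), ex (θ / l) 0 p), fun q => ⟨_, ey_mem (θ / l) q⟩,
      fun p => Subtype.ext (ey_ex _ p.2), fun q => by simp [zc_ey, ex_ey]⟩,
      ((c zc_smooth).prodMk (c (ex_smooth _ _))).prodMk (c (ex_smooth _ _)),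
      (ey_smooth _).continuous.subtype_mk _⟩, fun _ => rfl⟩
  · have h1 := ((ex_smooth (θ / l) 0).contDiffAt (H3_open.mem_nhds hp)).differentiableAt two_ne_zero
    have h2 := h1.hasFDerivAt
    rw [e, ← ey_ex (θ / l) hp] at h2
    have h3 := (h2.comp _ ((ey_smooth (θ / l)).differentiable one_ne_zero _).hasFDerivAt).fderiv
    have h4 : ex (θ / l) 0 ∘ ey (θ / l) = Prod.snd := funext fun q => by simp [ex_ey]
    rw [h4, fderiv_snd] at h3
    simpa using DFunLike.congr_fun h3 (0, 1)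
  · have h := sq_pos3 hp
    have e1 : zc (lox l θ p) = zc p + l := by
      have : lox l θ p 0 ^ 2 + lox l θ p 1 ^ 2 + lox l θ p 2 ^ 2 =
          exp l ^ 2 * (p 0 ^ 2 + p 1 ^ 2 + p 2 ^ 2) := by
        simp only [lox, Pi.smul_apply, smul_eq_mul, Matrix.cons_val]
        linear_combination exp l ^ 2 * (p 0 ^ 2 + p 1 ^ 2) * sin_sq_add_cos_sq θ
      rw [zc, this, log_mul (by positivity) h.ne', log_pow, log_exp, zc]
      ring
    have h2 : p 2 ≠ 0 := (hp : 0 < p 2).ne'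
    rw [ex, e1, mul_add, div_mul_cancel₀ _ hl.ne', ex]
    simp only [lox, Pi.smul_apply, smul_eq_mul, Matrix.cons_val, add_zero, cos_add, sin_add]
    field_simp
    linear_combination (cos (θ * zc p / l) * p 0 + sin (θ * zc p / l) * p 1) * sin_sq_add_cos_sq θ

end Pool.Agent.Lib.MP_b6ada6_gt
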