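import Pool.Agent.Lib.MP_b6ada6_gt.Ess

/-! Pushing essential loops across a regular level. -/

noncomputable section

namespace Pool.Agent.Lib.MP_b6ada6_gt

open Set Filter Topology

theorem push {u : ℝ × ℝ → ℝ} (hu : ContDiff ℝ 1 u) (hp : Per u) {τ : ℝ}
    (hr : ∀ x, u x = τ → fderiv ℝ u x ≠ 0) (h : ∀ ε > 0, Ess {x | u x < τ + ε}) :
    ∃ ε > 0, Ess {x | u x < τ - ε} := by
  have hc := hu.continuous
  have hD : Continuous (fderiv ℝ u) := hu.continuous_fderiv one_ne_zero
  have pD : Per (fderiv ℝ u) := fun x k => by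
    rw [← fderiv_comp_add_right]
    simp only [hp _ k]
  let g : ℝ × ℝ → ℝ × ℝ := fun x => (fderiv ℝ u x (1, 0), fderiv ℝ u x (0, 1))
  have hg : Continuous g := by fun_prop
  have pg : Per g := fun x k => by simp only [g, pD x k]
  have lin : ∀ x v, fderiv ℝ u x v = v.1 * (g x).1 + v.2 * (g x).2 := fun x v => by
    have e : v = v.1 • ((1, 0) : ℝ × ℝ) + v.2 • ((0, 1) : ℝ × ℝ) := by simp
    conv_lhs => rw [e, map_add, map_smul, map_smul]
    rfl
  have hK := isCompact_Icc (a := ((0, 0) : ℝ × ℝ)) (b := (1, 1))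
  obtain ⟨δ2, hδ2, h1⟩ := (hK.inter_right (isClosed_eq hD (continuous_const (y := 0)))).exists_forall_le'
    (f := fun x => |u x - τ|) (by fun_prop) (a := 0)
    fun x hx => abs_pos.2 (sub_ne_zero.2 fun e => hr x e hx.2)
  obtain ⟨δ, hδ, rfl⟩ : ∃ δ, 0 < δ ∧ δ2 = 2 * δ := ⟨δ2 / 2, by linarith, by ring⟩
  have hB := hK.inter_right (isClosed_le (f := fun x => |u x - τ|) (g := fun _ => δ) (by fun_prop)
    continuous_const)
  obtain ⟨c2, hc2, h2⟩ := hB.exists_forall_le' (f := fun x => fderiv ℝ u x (g x)) (by fun_prop)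
    (a := 0) fun x hx => by
      have h3 : fderiv ℝ u x ≠ 0 := fun e => by
        have h4 : |u x - τ| ≤ δ := hx.2
        linarith [h1 x ⟨hx.1, e⟩]
      by_contra h5
      refine h3 (ContinuousLinearMap.ext fun v => ?_)
      rw [lin] at h5
      have a1 : (g x).1 = 0 := by nlinarith [sq_nonneg (g x).1, sq_nonneg (g x).2]
      have a2 : (g x).2 = 0 := by nlinarith [sq_nonneg (g x).1, sq_nonneg (g x).2]
      rw [lin, a1, a2]
      simp
  obtain ⟨c, hc0, rfl⟩ : ∃ c, 0 < c ∧ c2 = 2 * c := ⟨c2 / 2, by linarith, by ring⟩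
  obtain ⟨η2, hη2, h3⟩ := Metric.eventually_nhds_iff.1
    (hB.eventually_forall_of_forall_eventually (x₀ := (0 : ℝ))
      (P := fun s x => c < fderiv ℝ u (x - s • g x) (g x)) fun x hx =>
        (continuousAt_const.eventually_lt (f := fun _ : ℝ × ℝ × ℝ => c)
          (g := fun z => fderiv ℝ u (z.2 - z.1 • g z.2) (g z.2)) (by fun_prop)
          (by
            have := h2 x hx
            simp only [zero_smul, sub_zero]
            linarith)))
  obtain ⟨η, hη, rfl⟩ : ∃ η, 0 < η ∧ η2 = 2 * η := ⟨η2 / 2, by linarith, by ring⟩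
  let χ : ℝ → ℝ := fun a => max 0 (min 1 (2 - 2 * |a - τ| / δ))
  have χ0 : ∀ a, 0 ≤ χ a := fun a => le_max_left _ _
  have χ1 : ∀ a, χ a ≤ 1 := fun a => max_le zero_le_one (min_le_left _ _)
  let F : ℝ × ℝ → ℝ × ℝ := fun x => x - (η * χ (u x)) • g x
  have hF : Continuous F := by fun_prop
  have pF : ∀ x k, F (x + iv k) = F x + iv k := fun x k => by
    simp only [F, hp x k, pg x k]
    abel
  have key : ∀ x, u (F x) ≤ u x - c * (η * χ (u x)) := fun x => by
    obtain ⟨x, hx, k, rfl⟩ := reduce x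
    rw [pF, hp, hp]
    by_cases h4 : |u x - τ| ≤ δ
    · have d : ∀ s : ℝ, HasDerivAt (fun s : ℝ => u (x - s • g x))
          (-fderiv ℝ u (x - s • g x) (g x)) s := fun s => by
        have := (hu.differentiable one_ne_zero (x - s • g x)).hasFDerivAt.comp_hasDerivAt s
          (((hasDerivAt_id s).smul_const (g x)).const_sub x)
        rwa [one_smul, map_neg] at this
      have h5 := mul_nonneg hη.le (χ0 (u x))
      have h6 := mul_le_of_le_one_right hη.le (χ1 (u x))
      have := (convex_Icc 0 η).image_sub_le_mul_sub_of_deriv_le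
        (f := fun s : ℝ => u (x - s • g x)) (by fun_prop)
        (fun s _ => (d s).differentiableAt.differentiableWithinAt) (C := -c)
        (fun s hs => by
          have hs' := interior_subset hs
          rw [(d s).deriv]
          refine neg_le_neg (h3 ?_ x ⟨hx, h4⟩).le
          rw [dist_zero_right, Real.norm_eq_abs, abs_of_nonneg hs'.1]
          linarith [hs'.2])
        0 ⟨le_rfl, hη.le⟩ _ ⟨h5, h6⟩ h5
      simp only [zero_smul, sub_zero] at this
      simp only [F]
      linarith
    · have : χ (u x) = 0 := max_eq_left ((min_le_right _ _).trans (by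
        rw [sub_nonpos, le_div_iff₀ hδ]
        linarith))
      simp [F, this]
  have hcη := mul_pos hc0 hη
  obtain ⟨x, k, hk, hj⟩ := h (min (δ / 2) (c * η / 2)) (by positivity)
  refine ⟨min (δ / 2) (c * η / 2), by positivity, F x, k, hk, pF x k ▸ joined_map hF ?_ hj⟩
  intro y hy
  have h4 : u y < τ + min (δ / 2) (c * η / 2) := hy
  have h5 := min_le_left (δ / 2) (c * η / 2)
  have h6 := min_le_right (δ / 2) (c * η / 2)
  have h7 := key y
  change u (F y) < _
  by_cases h8 : u y < τ - δ / 2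
  · have := mul_nonneg hc0.le (mul_nonneg hη.le (χ0 (u y)))
    linarith
  · have h9 : |u y - τ| ≤ δ / 2 := abs_le.2 ⟨by linarith, by linarith⟩
    have : χ (u y) = 1 := by
      refine (max_eq_right (le_min zero_le_one ?_)).trans (min_eq_left ?_)
      · rw [sub_nonneg, div_le_iff₀ hδ]
        linarith
      · rw [le_sub_comm, div_le_iff₀ hδ]
        linarith
    rw [this, mul_one] at h7
    linarith

end Pool.Agent.Lib.MP_b6ada6_gt
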