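import Mathlib

/-! The theorem of Sard for functions of two variables, and for a level surface. -/

noncomputable section

namespace Pool.Agent.Lib.MP_b6ada6_gt

open Set Filter Topology MeasureTheory Metric
open scoped NNReal ENNReal

theorem hold_le {f : ℝ × ℝ → ℝ} {S : Set (ℝ × ℝ)} {κ : ℝ≥0}
    (h : ∀ x ∈ S, ∀ y ∈ S, ‖f y - f x‖ ≤ κ * ‖y - x‖ ^ 2) : volume (f '' S) ≤ κ * volume S := by
  have H : HolderOnWith κ 2 f S := fun x hx y hy => by
    rw [edist_dist, edist_dist, dist_eq_norm, dist_eq_norm]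
    refine (ENNReal.ofReal_le_ofReal (h y hy x hx)).trans_eq ?_
    rw [ENNReal.ofReal_mul κ.coe_nonneg, ENNReal.ofReal_coe_nnreal, ENNReal.ofReal_pow (norm_nonneg _)]
    norm_num
  have := H.hausdorffMeasure_image_le (by norm_num) zero_le_one
  rw [hausdorffMeasure_real] at this
  simpa [hausdorffMeasure_prod_real] using this

theorem quad {f : ℝ × ℝ → ℝ} {W : Set (ℝ × ℝ)} (hW : IsOpen W) (hf : ContDiffOn ℝ 2 f W)
    {D : Set (ℝ × ℝ)} (hD : Convex ℝ D) (hDW : D ⊆ W) {κ : ℝ}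
    (hκ : ∀ z ∈ D, ‖fderiv ℝ (fderiv ℝ f) z‖ ≤ κ) {x y : ℝ × ℝ} (hx : x ∈ D) (hy : y ∈ D)
    (h0 : fderiv ℝ f x = 0) : ‖f y - f x‖ ≤ κ * ‖y - x‖ ^ 2 := by
  have h1 : ContDiffOn ℝ 1 (fderiv ℝ f) W := hf.fderiv_of_isOpen hW (by norm_num)
  have hs := hD.segment_subset hx hy
  have a1 : ∀ z ∈ segment ℝ x y, ‖fderiv ℝ f z‖ ≤ κ * ‖y - x‖ := fun z hz => by
    have := hD.norm_image_sub_le_of_norm_fderiv_le (f := fderiv ℝ f) (fun z hz =>
      (h1.differentiableOn one_ne_zero z (hDW hz)).differentiableAt (hW.mem_nhds (hDW hz)))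
      hκ hx (hs hz)
    rw [h0, sub_zero] at this
    exact this.trans (mul_le_mul_of_nonneg_left (norm_sub_le_of_mem_segment hz)
      ((ContinuousLinearMap.opNorm_nonneg _).trans (hκ x hx)))
  have := (convex_segment x y).norm_image_sub_le_of_norm_fderiv_le (f := f) (fun z hz =>
    (hf.differentiableOn two_ne_zero z (hDW (hs hz))).differentiableAt
      (hW.mem_nhds (hDW (hs hz)))) a1 (left_mem_segment ℝ x y) (right_mem_segment ℝ x y)
  rw [sq, ← mul_assoc]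
  exact this

theorem sard_ball {f : ℝ × ℝ → ℝ} {W : Set (ℝ × ℝ)} (hW : IsOpen W) (hf : ContDiffOn ℝ 2 f W)
    {x0 : ℝ × ℝ} {ρ : ℝ} (hB : closedBall x0 ρ ⊆ W) :
    volume (f '' {x ∈ closedBall x0 ρ | fderiv ℝ f x = 0}) = 0 := by
  have h1 : ContDiffOn ℝ 1 (fderiv ℝ f) W := hf.fderiv_of_isOpen hW (by norm_num)
  have h2 : ContinuousOn (fderiv ℝ (fderiv ℝ f)) (closedBall x0 ρ) :=
    (h1.continuousOn_fderiv_of_isOpen hW le_rfl).mono hB
  have hc := isCompact_closedBall x0 ρ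
  set K := {x ∈ closedBall x0 ρ | fderiv ℝ f x = 0} with hK
  have hKc : IsClosed K := (h1.continuousOn.mono hB).preimage_isClosed_of_isClosed
    isClosed_closedBall isClosed_singleton
  let K2 := {x ∈ K | fderiv ℝ (fderiv ℝ f) x = 0}
  have hK2 : IsClosed K2 := (h2.mono fun x hx => hx.1).preimage_isClosed_of_isClosed hKc
    isClosed_singleton
  have hN : volume (K \ K2) = 0 := by
    let Φ : ((ℝ × ℝ) →L[ℝ] ℝ) →L[ℝ] ℝ × ℝ :=
      (ContinuousLinearMap.apply ℝ ℝ (1, 0)).prod (ContinuousLinearMap.apply ℝ ℝ (0, 1))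
    have hA : ApproximatesLinearOn (fun x => Φ (fderiv ℝ f x)) (0 : (ℝ × ℝ) →L[ℝ] ℝ × ℝ) K 0 :=
      fun x hx y hy => by simp [hx.2, hy.2]
    have := hA.norm_fderiv_sub_le volume hKc.measurableSet
      (fun x => Φ.comp (fderiv ℝ (fderiv ℝ f) x)) fun x hx =>
        (Φ.hasFDerivAt.comp x ((h1.differentiableOn one_ne_zero x (hB hx.1)).differentiableAt
          (hW.mem_nhds (hB hx.1))).hasFDerivAt).hasFDerivWithinAt
    rw [ae_restrict_iff' hKc.measurableSet] at this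
    refine measure_mono_null ?_ (ae_iff.1 this)
    refine fun x hx h => hx.2 ⟨hx.1, ?_⟩
    have h3 := h hx.1
    rw [sub_zero, nonpos_iff_eq_zero, nnnorm_eq_zero] at h3
    refine ContinuousLinearMap.ext fun v => ?_
    have h4 := DFunLike.congr_fun h3 v
    have h5 : fderiv ℝ (fderiv ℝ f) x v (1, 0) = 0 := congrArg Prod.fst h4
    have h6 : fderiv ℝ (fderiv ℝ f) x v (0, 1) = 0 := congrArg Prod.snd h4
    refine ContinuousLinearMap.ext fun w => ?_
    have e : w = w.1 • ((1, 0) : ℝ × ℝ) + w.2 • ((0, 1) : ℝ × ℝ) := by simp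
    rw [e, map_add, map_smul, map_smul, h5, h6]
    simp
  have a1 : volume (f '' (K \ K2)) = 0 := by
    obtain ⟨L, hL⟩ := hc.exists_bound_of_continuousOn
      (E := (ℝ × ℝ) →L[ℝ] (ℝ × ℝ) →L[ℝ] ℝ) h2
    have := hold_le (f := f) (S := K \ K2) (κ := L.toNNReal) fun x hx y hy =>
      quad hW hf (convex_closedBall x0 ρ) hB (fun z hz => (hL z hz).trans (Real.le_coe_toNNReal L))
        hx.1.1 hy.1.1 hx.1.2
    rwa [hN, mul_zero, nonpos_iff_eq_zero] at this
  have a2 : ∀ ε : ℝ≥0, 0 < ε → volume (f '' K2) ≤ ε * volume K2 := fun ε hε => by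
    obtain ⟨δ, hδ, hu⟩ := (Metric.uniformContinuousOn_iff_le (β := (ℝ × ℝ) →L[ℝ] (ℝ × ℝ) →L[ℝ] ℝ)).1
      (hc.uniformContinuousOn_of_continuous h2) ε hε
    obtain ⟨A, m, b, d, u, p⟩ := SeparableSpace.exists_measurable_partition_diam_le (ℝ × ℝ) hδ
    have e : K2 = ⋃ n, K2 ∩ A n := by rw [← inter_iUnion, u, inter_univ]
    calc volume (f '' K2) = volume (⋃ n, f '' (K2 ∩ A n)) := by rw [← image_iUnion, ← e]
      _ ≤ ∑' n, volume (f '' (K2 ∩ A n)) := measure_iUnion_le _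
      _ ≤ ∑' n, ε * volume (K2 ∩ A n) := ENNReal.tsum_le_tsum fun n =>
          hold_le fun x hx y hy => quad hW hf
            ((convex_closedBall x0 ρ).inter (convex_closedBall x δ)) (fun z hz => hB hz.1)
            (fun z hz => by
              have := hu z hz.1 x hx.1.1.1 hz.2
              rw [hx.1.2] at this
              exact (dist_zero_right (E := (ℝ × ℝ) →L[ℝ] (ℝ × ℝ) →L[ℝ] ℝ) _).symm.trans_le this)
            ⟨hx.1.1.1, mem_closedBall_self hδ.le⟩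
            ⟨hy.1.1.1, (dist_le_diam_of_mem (b n) hy.2 hx.2).trans (d n)⟩ hx.1.1.2
      _ = ε * volume K2 := by
          rw [ENNReal.tsum_mul_left, ← measure_iUnion
            (fun i j hij => (p hij).mono inter_subset_right inter_subset_right)
            fun n => hK2.measurableSet.inter (m n), ← e]
  have a3 : volume (f '' K2) = 0 := by
    have hfin : volume K2 ≠ ⊤ :=
      ((measure_mono fun x hx => hx.1.1).trans_lt hc.measure_lt_top).ne
    have t : Tendsto (fun ε : ℝ≥0 => (ε : ℝ≥0∞) * volume K2) (𝓝[>] 0) (𝓝 (0 * volume K2)) :=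
      ENNReal.Tendsto.mul_const ((ENNReal.tendsto_coe.2 tendsto_id).mono_left nhdsWithin_le_nhds)
        (Or.inr hfin)
    rw [zero_mul] at t
    exact nonpos_iff_eq_zero.1 (ge_of_tendsto t (eventually_mem_nhdsWithin.mono a2))
  refine measure_mono_null ?_ (measure_union_null a1 a3)
  rintro _ ⟨x, hx, rfl⟩
  by_cases h : x ∈ K2
  · exact Or.inr ⟨x, h, rfl⟩
  · exact Or.inl ⟨x, ⟨hx, h⟩, rfl⟩

theorem sard_level {U : ℝ × ℝ × ℝ → ℝ} (hU : ContDiff ℝ 2 U) (τ : ℝ) :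
    volume (Prod.fst '' {q | U q = τ ∧ (∀ v, fderiv ℝ U q (0, v) = 0) ∧
      fderiv ℝ U q (1, 0) ≠ 0}) = 0 := by
  set C := {q | U q = τ ∧ (∀ v, fderiv ℝ U q (0, v) = 0) ∧ fderiv ℝ U q (1, 0) ≠ 0} with hC
  have hd : ∀ q, HasFDerivAt U (fderiv ℝ U q) q := fun q =>
    (hU.differentiable two_ne_zero q).hasFDerivAt
  have lin : ∀ q ∈ C, ∀ r v, fderiv ℝ U q (r, v) = r * fderiv ℝ U q (1, 0) := fun q hq r v => by
    have e : (r, v) = r • ((1, 0) : ℝ × ℝ × ℝ) + (0, v) := by simp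
    rw [e, map_add, map_smul, hq.2.1, add_zero, smul_eq_mul]
  have loc : ∀ q0 ∈ C, ∃ V ∈ 𝓝[C] q0, volume (Prod.fst '' V) = 0 := fun q0 h0 => by
    let D : (ℝ × ℝ × ℝ) →L[ℝ] ℝ × ℝ × ℝ := (fderiv ℝ U q0).prod (ContinuousLinearMap.snd ℝ _ _)
    let E : (ℝ × ℝ × ℝ) ≃L[ℝ] ℝ × ℝ × ℝ := ContinuousLinearEquiv.equivOfInverse D
      (((fderiv ℝ U q0 (1, 0))⁻¹ • ContinuousLinearMap.fst ℝ _ _).prod
        (ContinuousLinearMap.snd ℝ _ _))
      (fun q => by
        refine Prod.ext ?_ rfl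
        change (fderiv ℝ U q0 (1, 0))⁻¹ * fderiv ℝ U q0 (q.1, q.2) = q.1
        rw [lin q0 h0 q.1, mul_comm, mul_inv_cancel_right₀ h0.2.2])
      (fun q => by
        refine Prod.ext ?_ rfl
        change fderiv ℝ U q0 ((fderiv ℝ U q0 (1, 0))⁻¹ * q.1, q.2) = q.1
        rw [lin q0 h0 _ q.2, mul_comm, mul_inv_cancel_left₀ h0.2.2])
    have hF : ContDiffAt ℝ 2 (fun q => (U q, q.2)) q0 := (hU.prodMk contDiff_snd).contDiffAt
    have hF' : HasFDerivAt (fun q => (U q, q.2)) (E : (ℝ × ℝ × ℝ) →L[ℝ] ℝ × ℝ × ℝ) q0 :=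
      (hd q0).prodMk hasFDerivAt_snd
    have g1 := hF.to_localInverse hF' two_ne_zero
    have g2 := (hF.hasStrictFDerivAt' hF' two_ne_zero).eventually_left_inverse
    have g3 := (hF.hasStrictFDerivAt' hF' two_ne_zero).eventually_right_inverse
    change ∀ᶠ q in _, hF.localInverse hF' two_ne_zero _ = _ at g2
    change ∀ᶠ y in _, (U (hF.localInverse hF' two_ne_zero y),
      (hF.localInverse hF' two_ne_zero y).2) = y at g3
    generalize hF.localInverse hF' two_ne_zero = G at g1 g2 g3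
    rw [h0.1] at g1 g3
    let f : ℝ × ℝ → ℝ := fun x => (G (τ, x)).1
    have f1 : ContDiffAt ℝ 2 f q0.2 :=
      contDiffAt_fst.comp _ (g1.comp q0.2 (contDiffAt_const.prodMk contDiffAt_id))
    have f2 : ∀ᶠ x in 𝓝 q0.2, U (f x, x) = τ := by
      filter_upwards [(Continuous.prodMk_right τ).continuousAt.eventually g3] with x hx
      have e : G (τ, x) = (f x, x) := Prod.ext rfl (Prod.mk.inj hx).2
      rw [← e]
      exact (Prod.mk.inj hx).1
    obtain ⟨W0, hW0, f3⟩ := f1.contDiffOn le_rfl (by simp)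
    obtain ⟨W, hW1, hW, hW2⟩ := _root_.mem_nhds_iff.1 (inter_mem hW0 f2)
    obtain ⟨ρ, hρ, hB⟩ := nhds_basis_closedBall.mem_iff.1 (hW.mem_nhds hW2)
    have f4 : ContDiffOn ℝ 2 f W := f3.mono fun x hx => (hW1 hx).1
    refine ⟨_, inter_mem self_mem_nhdsWithin (mem_nhdsWithin_of_mem_nhds (inter_mem g2
      (continuous_snd.continuousAt.preimage_mem_nhds (closedBall_mem_nhds q0.2 hρ)))),
      measure_mono_null ?_ (sard_ball hW f4 hB)⟩
    rintro _ ⟨q, ⟨hq, h1, h2⟩, rfl⟩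
    have e : f q.2 = q.1 := by
      have h3 : G (U q, q.2) = q := h1
      rw [hq.1] at h3
      exact congrArg Prod.fst h3
    refine ⟨q.2, ⟨h2, ContinuousLinearMap.ext fun v => ?_⟩, e⟩
    have d1 : HasFDerivAt f (fderiv ℝ f q.2) q.2 :=
      ((f4.differentiableOn two_ne_zero _ (hB h2)).differentiableAt (hW.mem_nhds (hB h2))).hasFDerivAt
    have d2 := HasFDerivAt.comp q.2 (f := fun x => (f x, x)) (hd (f q.2, q.2))
      (d1.prodMk (hasFDerivAt_id q.2))
    have d3 : HasFDerivAt (fun x => U (f x, x)) (0 : (ℝ × ℝ) →L[ℝ] ℝ) q.2 :=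
      (hasFDerivAt_const τ q.2).congr_of_eventuallyEq
        (mem_of_superset (hW.mem_nhds (hB h2)) fun x hx => (hW1 hx).2)
    have d4 : fderiv ℝ U (f q.2, q.2) (fderiv ℝ f q.2 v, v) = 0 :=
      DFunLike.congr_fun (d2.unique d3) v
    rw [e, Prod.mk.eta, lin q hq] at d4
    exact (mul_eq_zero.1 d4).resolve_right hq.2.2
  choose! V hV h0 using loc
  obtain ⟨t, ht, hc, hs⟩ := TopologicalSpace.countable_cover_nhdsWithin hV
  refine measure_mono_null (image_mono hs) ?_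
  rw [image_iUnion₂]
  exact (measure_biUnion_null_iff hc).2 fun q hq => h0 q (ht hq)

end Pool.Agent.Lib.MP_b6ada6_gt
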