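import Pool.Agent.Lib.MP_b6ada6_gt.Mean

/-! Total variation of a periodic function that separates two essential loops. -/

noncomputable section

namespace Pool.Agent.Lib.MP_b6ada6_gt

open Set Real Filter Topology MeasureTheory

/-- determinant of two vectors -/
def dt (v x : ℝ × ℝ) : ℝ := v.1 * x.2 - v.2 * x.1

theorem dt_add (v x y : ℝ × ℝ) : dt v (x + y) = dt v x + dt v y := by
  simp only [dt, Prod.fst_add, Prod.snd_add]
  ring

theorem dt_smul (v x : ℝ × ℝ) (s : ℝ) : dt v (s • x) = s * dt v x := by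
  simp only [dt, Prod.smul_fst, Prod.smul_snd, smul_eq_mul]
  ring

theorem dt_cont (v : ℝ × ℝ) : Continuous (dt v) := by
  unfold dt
  fun_prop

theorem step_nat {c : ℝ → ℝ × ℝ} {w : ℝ × ℝ} (h : ∀ y, c (y + 1) = c y + w) (N : ℕ) (y : ℝ) :
    c (y + N) = c y + (N : ℝ) • w := by
  induction N with
  | zero => simp
  | succ N ih => rw [Nat.cast_succ, ← add_assoc, h, ih, add_smul, one_smul, add_assoc]

theorem sq_pos2 {v : ℝ × ℝ} (hv : v ≠ 0) : 0 < v.1 ^ 2 + v.2 ^ 2 := by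
  by_contra hc
  exact hv (Prod.ext (by simpa using (by nlinarith [sq_nonneg v.1, sq_nonneg v.2] : v.1 ^ 2 = 0))
    (by simpa using (by nlinarith [sq_nonneg v.1, sq_nonneg v.2] : v.2 ^ 2 = 0)))

theorem cross {v w : ℝ × ℝ} (hv : v ≠ 0) (hw : w ≠ 0) (hvw : dt v w = 0) {c p : ℝ → ℝ × ℝ}
    (hc : Continuous c) (hp : Continuous p) (h : ∀ y, c (y + 1) = c y + w) {s t : ℝ} (hst : s ≤ t)
    (h1 : ∀ y, dt v (p s) ≤ dt v (c y)) (h2 : ∀ y, dt v (c y) ≤ dt v (p t)) :
    ∃ u ∈ Icc s t, ∃ y, c y = p u := by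
  let a : ℝ × ℝ → ℝ := fun x => (v.1 * w.1 + v.2 * w.2) * (v.1 * x.1 + v.2 * x.2)
  have ha : Continuous a := by fun_prop
  have hδ : 0 < (v.1 * w.1 + v.2 * w.2) ^ 2 := by
    have e : (v.1 * w.1 + v.2 * w.2) ^ 2 + dt v w ^ 2 =
        (v.1 ^ 2 + v.2 ^ 2) * (w.1 ^ 2 + w.2 ^ 2) := by
      unfold dt
      ring
    rw [hvw] at e
    nlinarith [mul_pos (sq_pos2 hv) (sq_pos2 hw)]
  obtain ⟨C, hC⟩ := (isCompact_Icc (a := s) (b := t)).exists_bound_of_continuousOn
    (f := fun u => a (c 0) - a (p u)) (by fun_prop)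
  obtain ⟨N, hN⟩ := exists_nat_ge (C / (v.1 * w.1 + v.2 * w.2) ^ 2)
  rw [div_le_iff₀ hδ] at hN
  have e1 : a (c N) = a (c 0) + N * (v.1 * w.1 + v.2 * w.2) ^ 2 := by
    have := step_nat h N 0
    rw [zero_add] at this
    simp only [a, this, Prod.fst_add, Prod.snd_add, Prod.smul_fst, Prod.smul_snd, smul_eq_mul]
    ring
  have e2 : a (c 0) = a (c (-N)) + N * (v.1 * w.1 + v.2 * w.2) ^ 2 := by
    have := step_nat h N (-N)
    rw [neg_add_cancel] at this
    simp only [a, this, Prod.fst_add, Prod.snd_add, Prod.smul_fst, Prod.smul_snd, smul_eq_mul]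
    ring
  have hd := dt_cont v
  obtain ⟨y, -, u, hu, h3, h4⟩ := pm (A := fun q => a (c q.1) - a (p q.2))
    (B := fun q => dt v (p q.2) - dt v (c q.1)) (by fun_prop) (by fun_prop) (a := -N) (b := N)
    (by linarith [Nat.cast_nonneg (α := ℝ) N]) hst
    (fun u hu => by
      have := (abs_le.1 (hC u hu)).2
      linarith)
    (fun u hu => by
      have := (abs_le.1 (hC u hu)).1
      linarith)
    (fun y _ => by linarith [h1 y]) fun y _ => by linarith [h2 y]
  refine ⟨u, hu, y, ?_⟩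
  have h5 : v.1 * ((c y).1 - (p u).1) + v.2 * ((c y).2 - (p u).2) = 0 := by
    refine (mul_eq_zero.1 (?_ : (v.1 * w.1 + v.2 * w.2) * _ = 0)).resolve_left
      fun e => by simp [e] at hδ
    simp only [a] at h3
    linarith
  simp only [dt] at h4
  have h6 := (sq_pos2 hv).ne'
  refine Prod.ext (sub_eq_zero.1 (mul_left_cancel₀ h6 ?_)) (sub_eq_zero.1 (mul_left_cancel₀ h6 ?_))
  · linear_combination v.1 * h5 + v.2 * h4
  · linear_combination v.2 * h5 - v.1 * h4

theorem cross' {v w : ℝ × ℝ} (hv : v ≠ 0) (hw : w ≠ 0) (hvw : dt v w = 0) {c c' p : ℝ → ℝ × ℝ}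
    (hc : Continuous c) (hc' : Continuous c') (hp : Continuous p)
    (h : ∀ y, c (y + 1) = c y + w) (hd : ∀ y y', c y ≠ c' y') {y0 y1 s t : ℝ} (hst : s ≤ t)
    (h1 : ∀ y, dt v (p s) ≤ dt v (c y)) (h2 : ∀ y, dt v (c y) ≤ dt v (c' y1))
    (h3 : c' y0 = p t) : ∃ u ∈ Icc s t, ∃ y, c y = p u := by
  let P : ℝ → ℝ × ℝ := fun u => if u ≤ t then p u else c' (y0 + (u - t) * (y1 - y0))
  have hP : Continuous P := Continuous.if_le hp (by fun_prop) continuous_id continuous_const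
    (by rintro u rfl; simp [h3])
  obtain ⟨u, hu, y, hy⟩ := cross hv hw hvw hc hP h (s := s) (t := t + 1) (by linarith)
    (by simpa [P, hst] using h1) (by simpa [P, zero_lt_one.not_ge] using h2)
  by_cases hut : u ≤ t
  · exact ⟨u, ⟨hu.1, hut⟩, y, by simpa [P, hut] using hy⟩
  · exact absurd (by simpa [P, hut] using hy) (hd y _)

theorem per_max {h : ℝ → ℝ} (hc : Continuous h) (hp : ∀ y, h (y + 1) = h y) :
    ∃ y1, ∀ y, h y ≤ h y1 := by
  obtain ⟨_, ⟨y1, rfl⟩, h1⟩ := (Function.Periodic.compact_of_continuous hp one_ne_zero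
    hc).exists_isGreatest (range_nonempty h)
  exact ⟨y1, fun y => h1 ⟨y, rfl⟩⟩

theorem iv_ne {k : ℤ × ℤ} (h : k ≠ 0) : iv k ≠ 0 := fun e => h (iv_inj (e.trans iv_zero.symm))

theorem parallel {c0 c1 : ℝ → ℝ × ℝ} {w0 w1 : ℝ × ℝ} (h0 : w0 ≠ 0) (hc0 : Continuous c0)
    (hc1 : Continuous c1) (p0 : ∀ y, c0 (y + 1) = c0 y + w0) (p1 : ∀ y, c1 (y + 1) = c1 y + w1)
    (hd : ∀ y y', c0 y ≠ c1 y') : dt w0 w1 = 0 := by
  have hs : dt w0 w0 = 0 := by
    unfold dt
    ring
  have hdc := dt_cont w0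
  obtain ⟨y1, h1⟩ := per_max (h := fun y => dt w0 (c0 y)) (by fun_prop)
    fun y => by rw [p0, dt_add, hs, add_zero]
  obtain ⟨y2, h2⟩ := per_max (h := fun y => -dt w0 (c0 y)) (by fun_prop)
    fun y => by rw [p0, dt_add, hs, add_zero]
  by_contra hne
  obtain ⟨N, hN⟩ := exists_nat_ge
    ((|dt w0 (c0 y1) - dt w0 (c1 0)| + |dt w0 (c0 y2) - dt w0 (c1 0)|) / |dt w0 w1|)
  rw [div_le_iff₀ (abs_pos.2 hne)] at hN
  have e1 : dt w0 (c1 N) = dt w0 (c1 0) + N * dt w0 w1 := by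
    have := step_nat p1 N 0
    rw [zero_add] at this
    rw [this, dt_add, dt_smul]
  have e2 : dt w0 (c1 0) = dt w0 (c1 (-N)) + N * dt w0 w1 := by
    have := step_nat p1 N (-N)
    rw [neg_add_cancel] at this
    rw [this, dt_add, dt_smul]
  have a1 := le_abs_self (dt w0 (c0 y1) - dt w0 (c1 0))
  have a2 := neg_abs_le (dt w0 (c0 y2) - dt w0 (c1 0))
  have a3 := abs_nonneg (dt w0 (c0 y1) - dt w0 (c1 0))
  have a4 := abs_nonneg (dt w0 (c0 y2) - dt w0 (c1 0))
  have hN0 : -(N : ℝ) ≤ N := by linarith [Nat.cast_nonneg (α := ℝ) N]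
  rcases lt_or_gt_of_ne hne with hlt | hgt
  · rw [abs_of_neg hlt] at hN
    obtain ⟨u, -, y, hy⟩ := cross h0 h0 hs hc0 (p := fun u => c1 (-u)) (by fun_prop) p0 hN0
      (fun y => by rw [neg_neg]; linarith [h2 y]) fun y => by linarith [h1 y]
    exact hd _ _ hy
  · rw [abs_of_pos hgt] at hN
    obtain ⟨u, -, y, hy⟩ := cross h0 h0 hs hc0 hc1 p0 hN0
      (fun y => by linarith [h2 y]) fun y => by linarith [h1 y]
    exact hd _ _ hy

theorem tv {f : ℝ × ℝ → ℝ} (hp : Per f) (h0 : Ess {x | f x = 0}) (h1 : Ess {x | f x = 1}) :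
    ∃ v : ℤ × ℤ, v ≠ 0 ∧ ∀ n g, dt (iv v) n = 1 → Continuous g → Dir f g n →
      2 ≤ Mn fun x => |g x| := by
  obtain ⟨c0, k0, hk0, hc0, f0, p0⟩ := h0.curve fun x k => by simp only [mem_ofPred_eq, hp x k]
  obtain ⟨c2, k1, hk1, hc2, f2, p2⟩ := h1.curve fun x k => by simp only [mem_ofPred_eq, hp x k]
  simp only [mem_ofPred_eq] at f0 f2
  have hpar := parallel (iv_ne hk0) hc0 hc2 p0 p2 fun y y' e => by
    have := f0 y
    rw [e, f2] at this
    exact one_ne_zero this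
  have hg : 0 < Int.gcd k0.1 k0.2 := Int.gcd_pos_iff.2 (by
    by_contra hc
    push Not at hc
    exact hk0 (Prod.ext hc.1 hc.2))
  obtain ⟨v1, v2, hv, e1, e2⟩ := Int.exists_gcd_one hg
  generalize Int.gcd k0.1 k0.2 = G at hg e1 e2
  have hG : (G : ℝ) ≠ 0 := by exact_mod_cast hg.ne'
  have r1 : (k0.1 : ℝ) = v1 * G := by exact_mod_cast e1
  have r2 : (k0.2 : ℝ) = v2 * G := by exact_mod_cast e2
  have hv0 : (v1, v2) ≠ 0 := fun e => by
    obtain ⟨rfl, rfl⟩ := Prod.mk.inj e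
    simp at hv
  obtain ⟨w, hw⟩ : ∃ w : ℤ × ℤ, dt (iv (v1, v2)) (iv w) = 1 := by
    refine ⟨(-Int.gcdB v1 v2, Int.gcdA v1 v2), ?_⟩
    have := Int.gcd_eq_gcd_ab v1 v2
    rw [hv] at this
    have h' : (1 : ℝ) = v1 * Int.gcdA v1 v2 + v2 * Int.gcdB v1 v2 := by exact_mod_cast this
    simp only [dt, iv, Int.cast_neg]
    linarith
  have d0 : dt (iv (v1, v2)) (iv k0) = 0 := by
    simp only [dt, iv, r1, r2]
    ring
  have d1 : dt (iv (v1, v2)) (iv k1) = 0 := by
    refine mul_left_cancel₀ hG ?_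
    simp only [dt, iv, r1, r2] at hpar ⊢
    linarith
  refine ⟨(v1, v2), hv0, fun n g hn hgc hD => ?_⟩
  have hV := iv_ne hv0
  generalize iv (v1, v2) = V at hw d0 d1 hn hV
  have hdc := dt_cont V
  obtain ⟨y0, t0⟩ := per_max (h := fun y => dt V (c0 y)) (by fun_prop)
    fun y => by rw [p0, dt_add, d0, add_zero]
  obtain ⟨y1, t1⟩ := per_max (h := fun y => dt V (c2 y)) (by fun_prop)
    fun y => by rw [p2, dt_add, d1, add_zero]
  obtain ⟨z0, b0⟩ := per_max (h := fun y => -dt V (c0 y)) (by fun_prop)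
    fun y => by rw [p0, dt_add, d0, add_zero]
  obtain ⟨z1, b1⟩ := per_max (h := fun y => -dt V (c2 y)) (by fun_prop)
    fun y => by rw [p2, dt_add, d1, add_zero]
  obtain ⟨j0, hj1, hj2⟩ : ∃ j : ℤ, dt V (c0 y0) ≤ dt V (c2 y1) + j ∧
      dt V (c2 y1) + j ≤ dt V (c0 y0) + 1 :=
    ⟨⌈dt V (c0 y0) - dt V (c2 y1)⌉, by linarith [Int.le_ceil (dt V (c0 y0) - dt V (c2 y1))],
      by linarith [Int.ceil_lt_add_one (dt V (c0 y0) - dt V (c2 y1))]⟩
  obtain ⟨m, m0, m1⟩ : ∃ m, (∀ y, m ≤ dt V (c0 y)) ∧ ∀ y, m ≤ dt V (c2 y) + j0 :=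
    ⟨min (dt V (c0 z0)) (dt V (c2 z1) + j0), fun y => (min_le_left _ _).trans (by linarith [b0 y]),
      fun y => (min_le_right _ _).trans (by linarith [b1 y])⟩
  have hh : ∀ (x : ℝ × ℝ) (j : ℤ), dt V (x + iv (j • w)) = dt V x + j := fun x j => by
    rw [dt_add, iv_zsmul, dt_smul, hw, mul_one]
  have dj : ∀ y y' (j j' : ℤ), c0 y + iv (j • w) ≠ c2 y' + iv (j' • w) := fun y y' j j' e => by
    have := congrArg f e
    rw [hp, hp, f0, f2] at this
    exact zero_ne_one this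
  have line : ∀ (i : ℕ) (x : ℝ × ℝ),
      2 * (i : ℝ) ≤ ∫ s in (0 : ℝ)..(i + (dt V (c0 y0) - m + 1)), |g (x + s • n)| := by
    intro i x
    have hI : ∀ a b, IntervalIntegrable (fun s : ℝ => |g (x + s • n)|) volume a b := fun a b =>
      Continuous.intervalIntegrable (by fun_prop) _ _
    have hl : ∀ s : ℝ, dt V (x + s • n) = dt V x + s := fun s => by
      rw [dt_add, dt_smul, hn, mul_one]
    have hvar : ∀ a b : ℝ, a ≤ b →
        |f (x + b • n) - f (x + a • n)| ≤ ∫ s in a..b, |g (x + s • n)| := fun a b hab => by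
      rw [← intervalIntegral.integral_eq_sub_of_hasDerivAt (fun s _ => hD.at x s)
        (Continuous.intervalIntegrable (by fun_prop) _ _)]
      exact intervalIntegral.abs_integral_le_integral_abs hab
    obtain ⟨j1, l1, l2⟩ : ∃ j : ℤ, dt V x ≤ m + j ∧ m + j ≤ dt V x + 1 :=
      ⟨⌈dt V x - m⌉, by linarith [Int.le_ceil (dt V x - m)],
        by linarith [Int.ceil_lt_add_one (dt V x - m)]⟩
    have ind : ∀ (i : ℕ) (s : ℝ), 0 ≤ s → (∃ y, c0 y + iv ((j1 + i) • w) = x + s • n) →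
        2 * (i : ℝ) ≤ ∫ s in (0 : ℝ)..s, |g (x + s • n)| := by
      intro i
      induction i with
      | zero =>
        intro s hs _
        simpa using intervalIntegral.integral_nonneg hs fun u _ => abs_nonneg _
      | succ i ih =>
        rintro s hs ⟨y, hy⟩
        have hi : (0 : ℝ) ≤ i := Nat.cast_nonneg i
        obtain ⟨s', hs', y', hy'⟩ := cross' hV (iv_ne hk1) d1
          (c := fun y => c2 y + iv ((j0 + j1 + i) • w))
          (c' := fun y => c0 y + iv ((j1 + (i + 1 : ℕ)) • w)) (p := fun s => x + s • n)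
          (by fun_prop) (by fun_prop) (by fun_prop) (fun y => by rw [p2, add_right_comm])
          (fun y y' => (dj _ _ _ _).symm) (y1 := y0) hs
          (fun y => by rw [hl, hh]; push_cast; linarith [m1 y])
          (fun y => by rw [hh, hh]; push_cast; linarith [t1 y]) hy
        obtain ⟨s'', hs'', y'', hy''⟩ := cross' hV (iv_ne hk0) d0
          (c := fun y => c0 y + iv ((j1 + i) • w))
          (c' := fun y => c2 y + iv ((j0 + j1 + i) • w)) (p := fun s => x + s • n)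
          (by fun_prop) (by fun_prop) (by fun_prop) (fun y => by rw [p0, add_right_comm])
          (fun y y' => dj _ _ _ _) (y1 := y1) hs'.1
          (fun y => by rw [hl, hh]; push_cast; linarith [m0 y])
          (fun y => by rw [hh, hh]; push_cast; linarith [t0 y]) hy'
        have a1 := ih s'' hs''.1 ⟨y'', hy''⟩
        have a2 := hvar s'' s' hs''.2
        have a3 := hvar s' s hs'.2
        rw [← hy', ← hy'', hp, hp, f0, f2] at a2
        rw [← hy, ← hy', hp, hp, f0, f2] at a3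
        rw [← intervalIntegral.integral_add_adjacent_intervals (hI 0 s') (hI s' s),
          ← intervalIntegral.integral_add_adjacent_intervals (hI 0 s'') (hI s'' s')]
        push_cast
        norm_num at a2 a3
        linarith
    have hi : (0 : ℝ) ≤ i := Nat.cast_nonneg i
    obtain ⟨s, hs, y, hy⟩ := cross hV (iv_ne hk0) d0 (c := fun y => c0 y + iv ((j1 + i) • w))
      (p := fun s => x + s • n) (by fun_prop) (by fun_prop) (fun y => by rw [p0, add_right_comm])
      (s := 0) (t := i + (dt V (c0 y0) - m + 1)) (by linarith [m0 y0])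
      (fun y => by rw [hl, hh]; push_cast; linarith [m0 y])
      (fun y => by rw [hl, hh]; push_cast; linarith [t0 y])
    rw [← intervalIntegral.integral_add_adjacent_intervals (hI 0 s) (hI s _)]
    linarith [ind i s hs.1 ⟨y, hy⟩,
      intervalIntegral.integral_nonneg (μ := volume) (f := fun s : ℝ => |g (x + s • n)|) hs.2
        fun u _ => abs_nonneg _]
  have fin : ∀ i : ℕ, 2 * (i : ℝ) ≤ (i + (dt V (c0 y0) - m + 1)) * Mn fun x => |g x| := fun i => by
    rw [← Mn_line (g := fun x => |g x|) (by fun_prop) (fun x k => by simp only [hD.per hp x k]) n,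
      ← Mn_const (2 * (i : ℝ))]
    refine Mn_mono continuous_const ?_ (line i)
    exact intervalIntegral.continuous_parametric_intervalIntegral_of_continuous' (by fun_prop) _ _
  by_contra hc
  obtain ⟨i, hi⟩ := exists_nat_gt
    ((dt V (c0 y0) - m + 1) * (Mn fun x => |g x|) / (2 - Mn fun x => |g x|))
  rw [div_lt_iff₀ (by linarith)] at hi
  linarith [fin i]

end Pool.Agent.Lib.MP_b6ada6_gt
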