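import Pool.Agent.Lib.MP_b6ada6_gt.Div
import Pool.Agent.Lib.MP_b6ada6_gt.TV
import Pool.Agent.Lib.MP_b6ada6_gt.Sard
import Pool.Agent.Lib.MP_b6ada6_gt.Push

/-! The tube inequality. -/

noncomputable section

namespace Pool.Agent.Lib.MP_b6ada6_gt

open Set Filter Topology Real MeasureTheory

variable {l θ : ℝ} {t : (Fin 3 → ℝ) → ℝ}

theorem sys_le (l θ r : ℝ) {k : ℤ × ℤ} (hk : k ≠ 0) :
    sys l θ r ≤ √((k.2 * l * cosh r) ^ 2 + ((2 * π * k.1 + k.2 * θ) * sinh r) ^ 2) :=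
  ciInf_le (f := fun k : {k : ℤ × ℤ // k ≠ 0} =>
    √((k.1.2 * l * cosh r) ^ 2 + ((2 * π * k.1.1 + k.1.2 * θ) * sinh r) ^ 2))
    ⟨0, fun _ ⟨_, e⟩ => e ▸ sqrt_nonneg _⟩ ⟨k, hk⟩

theorem sys_nonneg (l θ r : ℝ) : 0 ≤ sys l θ r := iInf_nonneg fun _ => sqrt_nonneg _

theorem sys_int (l θ a b : ℝ) : IntervalIntegrable (sys l θ) volume a b := by
  refine (Continuous.intervalIntegrable (u := fun r => √((2 * π * sinh r) ^ 2)) (by fun_prop) a
    b).mono_fun' (Measurable.iInf fun k => Continuous.measurable (by fun_prop)).aestronglyMeasurable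
    (ae_of_all _ fun r => ?_)
  simpa [abs_of_nonneg (sys_nonneg l θ r)] using sys_le l θ r (k := (1, 0)) (by simp)

theorem conv (hl : 0 < l) {F : (Fin 3 → ℝ) → ℝ} (hF : ContinuousOn F H3) (r : ℝ) :
    ∫ z in (0 : ℝ)..l, ∫ φ in (0 : ℝ)..2 * π, F (fermi r φ z) =
      2 * π * l * Mn fun x => F (Ps l θ (r, x)) := by
  have hπ := two_pi_pos.ne'
  have h1 : ∀ b, ∫ a in (0 : ℝ)..1, F (Ps l θ (r, a, b)) =
      (2 * π)⁻¹ * ∫ φ in (0 : ℝ)..2 * π, F (fermi r φ (l * b)) := fun b => by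
    have p : Function.Periodic (fun φ => F (fermi r φ (l * b))) (2 * π) := fun φ => by
      simp only [fermi, cos_add_two_pi, sin_add_two_pi]
    have := intervalIntegral.integral_comp_mul_add (a := 0) (b := 1)
      (fun φ => F (fermi r φ (l * b))) hπ (θ * b)
    rw [mul_zero, zero_add, mul_one, add_comm (2 * π), p.intervalIntegral_add_eq _ 0, zero_add]
      at this
    exact this
  have h2 := intervalIntegral.integral_comp_mul_left (a := 0) (b := 1)
    (fun z => ∫ φ in (0 : ℝ)..2 * π, F (fermi r φ z)) hl.ne'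
  rw [Mn_iter (F := fun x => F (Ps l θ (r, x)))
    ((comp0 hF).comp (f := fun x : ℝ × ℝ => (r, x)) (by fun_prop))]
  simp only [h1, intervalIntegral.integral_const_mul, h2, mul_zero, mul_one,
    smul_eq_mul]
  field_simp

theorem Ps_lox (r : ℝ) (x : ℝ × ℝ) : Ps l θ (r, x + (0, 1)) = lox l θ (Ps l θ (r, x)) := by
  have e : an θ (x + (0, 1)) = an θ x + θ := by
    simp only [an, Prod.fst_add, Prod.snd_add]
    ring
  funext i
  fin_cases i <;> simp [Ps, lox, fermi, e, mul_add, exp_add, cos_add, sin_add] <;> ring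

variable (ht : ContDiffOn ℝ 2 t H3) (h0 : ∀ p ∈ H3, fderiv ℝ t p ≠ 0) (hl : 0 < l)
  (hp : ∀ r, Per fun x => t (Ps l θ (r, x)))
include ht h0 hl hp

theorem lower {r : ℝ} (hr : 0 < r) {ψ : ℝ → ℝ} (hψ : ContDiff ℝ 1 ψ) (hm : Monotone ψ)
    (E0 : Ess {x | ψ (t (Ps l θ (r, x))) = 0}) (E1 : Ess {x | ψ (t (Ps l θ (r, x))) = 1}) :
    sys l θ r / (π * l) ≤
      Mn fun x => deriv ψ (t (Ps l θ (r, x))) * (sinh r * cosh r * Gg t l θ (r, x)) := by
  obtain ⟨v, hv, H⟩ := tv (f := fun x => ψ (t (Ps l θ (r, x)))) (fun x k => by simp only [hp r x k])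
    E0 E1
  have hU := comp1 (l := l) (θ := θ) (ht.of_le one_le_two)
  have hw : ContDiff ℝ 1 fun q => ψ (t (Ps l θ q)) := hψ.comp hU
  have hs := sinh_pos_iff.2 hr
  have hc := cosh_pos r
  have hπ := pi_pos
  have h1 := sys_le l θ r hv
  set a := v.2 * l * cosh r with ha
  set b := (2 * π * v.1 + v.2 * θ) * sinh r with hb
  have hN : 0 < a ^ 2 + b ^ 2 := by
    by_cases h : v.2 = 0
    · have : (v.1 : ℝ) ≠ 0 := Int.cast_ne_zero.2 fun h' => hv (Prod.ext h' h)
      have : b ≠ 0 := by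
        rw [hb, h, Int.cast_zero, zero_mul, add_zero]
        positivity
      positivity
    · have : (v.2 : ℝ) ≠ 0 := Int.cast_ne_zero.2 h
      have : a ≠ 0 := by positivity
      positivity
  set κ := 2 * π * l / (a ^ 2 + b ^ 2) with hκ
  have hκ0 : 0 < κ := by positivity
  have hκ1 : κ * (a ^ 2 + b ^ 2) = 2 * π * l := div_mul_cancel₀ _ hN.ne'
  let n : ℝ × ℝ := ((-κ * cosh r * a - θ * (κ * sinh r * b / l)) / (2 * π), κ * sinh r * b / l)
  have n1 : an θ n = -κ * cosh r * a := by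
    simp only [an, n]
    field_simp
    ring
  have n2 : l * n.2 = κ * sinh r * b := mul_div_cancel₀ _ hl.ne'
  have n3 : dt (iv v) n = 1 := by
    refine mul_left_cancel₀ (show 2 * π * l ≠ 0 by positivity) ?_
    simp only [an] at n1
    simp only [dt, iv]
    linear_combination (2 * π * v.1 + v.2 * θ) * n2 - v.2 * l * n1 + hκ1 - κ * a * ha - κ * b * hb
  have cG := Gg_cont (l := l) (θ := θ) ht h0
  have cd : Continuous fun q => deriv ψ (t (Ps l θ q)) :=
    (hψ.continuous_deriv le_rfl).comp hU.continuous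
  have cg : Continuous fun x => fderiv ℝ (fun q => ψ (t (Ps l θ q))) (r, x) (0, n) :=
    (fd_cont hw (0, n)).comp (f := fun x : ℝ × ℝ => (r, x)) (by fun_prop)
  have h2 := (H n _ n3 cg (dir_of hw r n)).trans (Mn_mono cg.abs
    (G := fun x => κ * √(a ^ 2 + b ^ 2) *
      (deriv ψ (t (Ps l θ (r, x))) * (sinh r * cosh r * Gg t l θ (r, x))))
    (continuous_const.mul ((cd.comp (f := fun x : ℝ × ℝ => (r, x)) (by fun_prop)).mul
      (by fun_prop))) fun x => ?_)
  · rw [Mn_mul] at h2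
    rw [div_le_iff₀ (by positivity)]
    have h3 := mul_le_mul_of_nonneg_left h2 (sqrt_nonneg (a ^ 2 + b ^ 2))
    rw [← mul_assoc, mul_left_comm, mul_self_sqrt hN.le, hκ1] at h3
    linarith
  · have e : fderiv ℝ (fun q => ψ (t (Ps l θ q))) (r, x) = _ :=
      ((hψ.differentiable one_ne_zero _).hasDerivAt.comp_hasFDerivAt (r, x)
        (hU.differentiable one_ne_zero (r, x)).hasFDerivAt).fderiv
    have nr := nrm (l := l) (θ := θ) h0 (r, x)
    have hG := Gg_pos (l := l) (θ := θ) h0 (r, x)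
    have hd : 0 ≤ deriv ψ (t (Ps l θ (r, x))) := hm.deriv_nonneg
    have h4 : |yD t l θ (r, x) * b - cosh r * yB t l θ (r, x) * a| ≤ cosh r * √(a ^ 2 + b ^ 2) := by
      refine abs_le_of_sq_le_sq ?_ (by positivity)
      rw [mul_pow, sq_sqrt hN.le]
      simp only at nr
      nlinarith [sq_nonneg (yD t l θ (r, x) * a + cosh r * yB t l θ (r, x) * b),
        mul_nonneg (sq_nonneg (yA t l θ (r, x))) hN.le]
    rw [e, smul_apply, du ht h0, n1, n2, smul_eq_mul]
    calc _ = |deriv ψ (t (Ps l θ (r, x))) * Gg t l θ (r, x) * κ * sinh r *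
          (yD t l θ (r, x) * b - cosh r * yB t l θ (r, x) * a)| := by
          congr 1
          ring
      _ ≤ deriv ψ (t (Ps l θ (r, x))) * Gg t l θ (r, x) * κ * sinh r *
          (cosh r * √(a ^ 2 + b ^ 2)) := by
          rw [abs_mul, abs_of_nonneg (by positivity)]
          exact mul_le_mul_of_nonneg_left h4 (by positivity)
      _ = _ := by ring

theorem gap {τ : ℝ} (hτ : ∀ r > 0, ∀ ε > 0, Ess {x | t (Ps l θ (r, x)) < τ + ε} ∧
    Ess {x | τ - ε < t (Ps l θ (r, x))}) : ∀ᵐ r : ℝ, 0 < r → ∃ ε > 0,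
      Ess {x | t (Ps l θ (r, x)) < τ - ε} ∧ Ess {x | τ + ε < t (Ps l θ (r, x))} := by
  have hU : ContDiff ℝ 2 fun q => t (Ps l θ q) := ht.comp_contDiff Ps_smooth Ps_mem
  have hU1 := hU.of_le one_le_two
  filter_upwards [measure_eq_zero_iff_ae_notMem.1 (sard_level hU τ)] with r hB hr
  have hu : ContDiff ℝ 1 fun x => t (Ps l θ (r, x)) :=
    hU1.comp (f := fun x : ℝ × ℝ => (r, x)) (by fun_prop)
  have reg : ∀ x, t (Ps l θ (r, x)) = τ → fderiv ℝ (fun x => t (Ps l θ (r, x))) x ≠ 0 :=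
    fun x hx e => by
    have h1 : ∀ v, fderiv ℝ (fun q => t (Ps l θ q)) (r, x) (0, v) = 0 := fun v => by
      have : HasDerivAt _ _ _ := (hu.differentiable one_ne_zero x).hasFDerivAt.hasLineDerivAt v
      exact ((dir_of hU1 r v x).unique this).trans (by rw [e, zero_apply])
    refine hB ⟨(r, x), ⟨hx, h1, fun h2 => ?_⟩, rfl⟩
    have h3 := h1 (1, 0)
    have h4 := h1 (-θ, 2 * π)
    have a1 : an θ 0 = 0 := by simp [an]
    have a2 : an θ (1, 0) = 2 * π := by simp [an]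
    have a3 : an θ (-θ, 2 * π) = 0 := by
      simp only [an]
      ring
    have hs := (sinh_pos_iff.2 hr).ne'
    have hc := (cosh_pos r).ne'
    have hG := (Gg_pos (l := l) (θ := θ) h0 (r, x)).ne'
    have nr := nrm (l := l) (θ := θ) h0 (r, x)
    rw [du ht h0] at h2 h3 h4
    simp [a1, a2, a3, hs, hc, hG, hl.ne', pi_pos.ne'] at h2 h3 h4
    simp [h2, h3, h4, eq_comm (a := (0 : ℝ)), hc] at nr
  obtain ⟨ε, h1, h2⟩ := push hu (hp r) reg fun ε hε => (hτ r hr ε hε).1
  obtain ⟨δ, h3, h4⟩ := push (u := fun x => -t (Ps l θ (r, x))) (τ := -τ) hu.neg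
    (fun x k => congrArg Neg.neg (hp r x k))
    (fun x hx => by
      rw [fderiv_fun_neg]
      exact neg_ne_zero.2 (reg x (neg_injective hx)))
    fun ε hε => (hτ r hr ε hε).2.mono fun x hx => by
      simp only [mem_ofPred_eq] at hx ⊢
      linarith
  refine ⟨min ε δ, lt_min h1 h3, h2.mono fun x hx => ?_, h4.mono fun x hx => ?_⟩ <;>
    simp only [mem_ofPred_eq] at hx ⊢
  · linarith [min_le_left ε δ]
  · linarith [min_le_right ε δ]

theorem tube {τ : ℝ} (hτ : ∀ r > 0, ∀ ε > 0, Ess {x | t (Ps l θ (r, x)) < τ + ε} ∧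
    Ess {x | τ - ε < t (Ps l θ (r, x))}) {R : ℝ} (hR : 0 ≤ R) :
    ∫ r in (0 : ℝ)..R, sys l θ r / (π * l) ≤ sinh R * cosh R / 2 +
      (∫ r in (0 : ℝ)..R, Mn fun x => |mc t (Ps l θ (r, x))| * (sinh r * cosh r)) / 2 := by
  let ψ : ℕ → ℝ → ℝ := fun n s => smoothTransition (n * (s - τ) + 1 / 2)
  have hψ : ∀ n, ContDiff ℝ 1 (ψ n) := fun n =>
    (smoothTransition.contDiff (n := 1)).comp (by fun_prop)
  have hm : ∀ n, Monotone (ψ n) := fun n a b h => smoothTransition.monotone (by gcongr)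
  let J : ℕ → ℝ → ℝ := fun n r =>
    Mn fun x => deriv (ψ n) (t (Ps l θ (r, x))) * (sinh r * cosh r * Gg t l θ (r, x))
  have cG := Gg_cont (l := l) (θ := θ) ht h0
  have cK : ∀ n, Continuous fun q : ℝ × ℝ × ℝ =>
      deriv (ψ n) (t (Ps l θ q)) * (sinh q.1 * cosh q.1 * Gg t l θ q) := fun n =>
    (((hψ n).continuous_deriv le_rfl).comp (comp0 ht.continuousOn)).mul (by fun_prop)
  have cJ : ∀ n, Continuous (J n) := fun n => Mn_cont' (cK n)
  have hI := (sys_int l θ 0 R).div_const (π * l)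
  have s0 : ∀ r, 0 ≤ sys l θ r / (π * l) := fun r =>
    div_nonneg (sys_nonneg l θ r) (mul_pos pi_pos hl).le
  have hM : ∀ n, IntervalIntegrable (fun r => min (J n r) (sys l θ r / (π * l))) volume 0 R :=
    fun n => ⟨((cJ n).intervalIntegrable 0 R).1.inf hI.1, ((cJ n).intervalIntegrable 0 R).2.inf hI.2⟩
  refine le_of_tendsto' (intervalIntegral.tendsto_integral_filter_of_dominated_convergence
    (l := atTop) (F := fun n r => min (J n r) (sys l θ r / (π * l))) _
    (Eventually.of_forall fun n => (hM n).def'.aestronglyMeasurable)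
    (Eventually.of_forall fun n => ae_of_all _ fun r hr => ?_) hI ?_) fun n => ?_
  · rw [uIoc_of_le hR] at hr
    have : 0 ≤ J n r := (Mn_const 0).ge.trans (Mn_mono continuous_const
      ((cK n).comp (f := fun x : ℝ × ℝ => (r, x)) (by fun_prop)) fun x =>
        mul_nonneg (hm n).deriv_nonneg (mul_nonneg (mul_nonneg (sinh_nonneg_iff.2 hr.1.le)
          (cosh_pos r).le) (Gg_pos h0 _).le))
    rw [Real.norm_of_nonneg (le_min this (s0 r))]
    exact min_le_right _ _
  · filter_upwards [gap ht h0 hl hp hτ] with r h hr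
    rw [uIoc_of_le hR] at hr
    obtain ⟨ε, hε, E0, E1⟩ := h hr.1
    refine tendsto_const_nhds.congr' ?_
    filter_upwards [(tendsto_natCast_atTop_atTop (R := ℝ)).eventually_ge_atTop ε⁻¹] with n hn
    have h1 : 1 ≤ n * ε := (inv_le_iff_one_le_mul₀ hε).1 hn
    have h2 : (0 : ℝ) ≤ n := n.cast_nonneg
    refine (min_eq_right (lower ht h0 hl hp hr.1 (hψ n) (hm n) (E0.mono fun x hx => ?_)
      (E1.mono fun x hx => ?_))).symm
    · exact smoothTransition.zero_of_nonpos (by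
        nlinarith [mul_le_mul_of_nonneg_left (le_of_lt hx) h2])
    · exact smoothTransition.one_of_one_le (by
        nlinarith [mul_le_mul_of_nonneg_left (le_of_lt hx) h2])
  · have := upper ht h0 hl hp (χ := fun s => ψ n s - 1 / 2) ((hψ n).sub contDiff_const)
      (fun s => abs_le.2 ⟨by linarith [smoothTransition.nonneg (n * (s - τ) + 1 / 2)],
        by linarith [smoothTransition.le_one (n * (s - τ) + 1 / 2)]⟩) hR
    simp only [deriv_sub_const] at this
    exact (intervalIntegral.integral_mono_on hR (hM n) ((cJ n).intervalIntegrable 0 R)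
      fun r _ => min_le_left _ _).trans this

omit hp in
theorem main (hi : ∀ p ∈ H3, t (lox l θ p) = t p) {P : Type} [TopologicalSpace P]
    (Φ : H3 ≃ₜ P × ℝ) (hΦ : ∀ p, (Φ p).2 = t p) {R : ℝ} (hR : 0 ≤ R) :
    4 * ∫ r in (0 : ℝ)..R, sys l θ r ≤ 2 * π * l * sinh R * cosh R +
      ∫ r in (0 : ℝ)..R, ∫ z in (0 : ℝ)..l, ∫ φ in (0 : ℝ)..2 * π,
        |mc t (fermi r φ z)| * (sinh r * cosh r) := by
  have hp : ∀ r, Per fun x => t (Ps l θ (r, x)) := fun r => per_of_gen
    (fun x => congrArg (fun p : H3 => t p) (tor_one l θ r x))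
    fun x => (congrArg t (Ps_lox r x)).trans (hi _ (Ps_mem _))
  obtain ⟨τ, hτ⟩ := exists_level hl (t := fun p : H3 => t p) hp Φ hΦ
  have h := tube ht h0 hl hp hτ hR
  have hc := fun r => conv (θ := θ) hl (F := fun p => |mc t p| * (sinh r * cosh r))
    ((mc_cont ht h0).abs.mul continuousOn_const) r
  simp only [hc, intervalIntegral.integral_const_mul]
  rw [intervalIntegral.integral_div, div_le_iff₀ (mul_pos pi_pos hl)] at h
  linarith

end Pool.Agent.Lib.MP_b6ada6_gt
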