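import Mathlib

/-! Continuous arguments and the theorem of Poincare and Miranda in the plane. -/

noncomputable section

namespace Pool.Agent.Lib.MP_b6ada6_gt

open Set Real

theorem exists_log {X : Type} [TopologicalSpace X] [SimplyConnectedSpace X]
    [LocallyPathConnectedSpace X] {G : X → ℂ} (hG : Continuous G) (h0 : ∀ x, G x ≠ 0) :
    ∃ L : X → ℂ, Continuous L ∧ ∀ x, Complex.exp (L x) = G x := by
  obtain ⟨x0⟩ : Nonempty X := inferInstance
  obtain ⟨F, ⟨-, hF⟩, -⟩ := Complex.isCoveringMap_exp.existsUnique_continuousMap_lifts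
    (⟨fun x => ⟨G x, h0 x⟩, hG.subtype_mk _⟩ : C(X, {z : ℂ // z ≠ 0})) x0 (Complex.log (G x0))
    (Subtype.ext (Complex.exp_log (h0 x0)))
  exact ⟨F, F.continuous, fun x => congrArg Subtype.val (congrFun hF x)⟩

theorem stay {A : ℝ → ℝ} (hA : Continuous A) {a b u v : ℝ} (h1 : u < A a) (h2 : A a < v)
    (h : ∀ y, A y ≠ u ∧ A y ≠ v) : u < A b ∧ A b < v := by
  constructor
  · by_contra hc
    obtain ⟨y, hy⟩ := intermediate_value_univ b a hA ⟨not_lt.1 hc, h1.le⟩
    exact (h y).1 hy
  · by_contra hc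
    obtain ⟨y, hy⟩ := intermediate_value_univ a b hA ⟨h2.le, not_lt.1 hc⟩
    exact (h y).2 hy

theorem turn {A : ℝ → ℝ} (hA : Continuous A) {a b : ℝ} (h1 : -(π / 2) ≤ A a) (h2 : A a ≤ 0)
    (h : ∀ y, 0 ≤ cos (A y)) (hb : 0 ≤ sin (A b)) : 0 ≤ A b ∧ A b ≤ π / 2 := by
  have hp := pi_pos
  obtain ⟨h3, h4⟩ := stay hA (a := a) (b := b) (u := -π) (v := π) (by linarith) (by linarith)
    fun y => ⟨fun e => by have := h y; rw [e, cos_neg, cos_pi] at this; linarith,
      fun e => by have := h y; rw [e, cos_pi] at this; linarith⟩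
  constructor
  · by_contra hc
    have := sin_neg_of_neg_of_neg_pi_lt (not_le.1 hc) h3
    linarith
  · by_contra hc
    have := cos_neg_of_pi_div_two_lt_of_lt (not_le.1 hc) (by linarith)
    linarith [h b]

theorem pm {A B : ℝ × ℝ → ℝ} (hA : Continuous A) (hB : Continuous B) {a b c d : ℝ} (hab : a ≤ b)
    (hcd : c ≤ d) (h1 : ∀ y ∈ Icc c d, A (a, y) ≤ 0) (h2 : ∀ y ∈ Icc c d, 0 ≤ A (b, y))
    (h3 : ∀ x ∈ Icc a b, B (x, c) ≤ 0) (h4 : ∀ x ∈ Icc a b, 0 ≤ B (x, d)) :
    ∃ x ∈ Icc a b, ∃ y ∈ Icc c d, A (x, y) = 0 ∧ B (x, y) = 0 := by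
  by_contra hc
  push Not at hc
  let P : ℝ × ℝ → ℝ × ℝ := fun q => (projIcc a b hab q.1, projIcc c d hcd q.2)
  have hP : Continuous P := by
    refine Continuous.prodMk ?_ ?_
    · exact continuous_subtype_val.comp (continuous_projIcc.comp continuous_fst)
    · exact continuous_subtype_val.comp (continuous_projIcc.comp continuous_snd)
  let G : ℝ × ℝ → ℂ := fun q => (A (P q) : ℂ) + (B (P q) : ℂ) * Complex.I
  have hG : Continuous G := by fun_prop
  have h0 : ∀ q, G q ≠ 0 := fun q e => by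
    have e1 := congrArg Complex.re e
    have e2 := congrArg Complex.im e
    simp [G] at e1 e2
    exact hc _ (projIcc a b hab q.1).2 _ (projIcc c d hcd q.2).2 e1 e2
  obtain ⟨L, hL, eL⟩ := exists_log hG h0
  obtain ⟨k, hk⟩ : ∃ k : ℤ, -π < (L (b, c)).im - k * (2 * π) ∧ (L (b, c)).im - k * (2 * π) ≤ π := by
    refine ⟨toIocDiv two_pi_pos (-π) (L (b, c)).im, ?_⟩
    have := sub_toIocDiv_zsmul_mem_Ioc two_pi_pos (-π) (L (b, c)).im
    rw [zsmul_eq_mul] at this
    exact ⟨this.1, by linarith [this.2]⟩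
  let T : ℝ × ℝ → ℝ := fun q => (L q).im - k * (2 * π)
  have hT : Continuous T := by fun_prop
  have eA : ∀ q, A (P q) = exp (L q).re * cos (T q) := fun q => by
    have := congrArg Complex.re (eL q)
    rw [Complex.exp_re] at this
    simp only [T, cos_sub_int_mul_two_pi]
    simpa [G] using this.symm
  have eB : ∀ q, B (P q) = exp (L q).re * sin (T q) := fun q => by
    have := congrArg Complex.im (eL q)
    rw [Complex.exp_im] at this
    simp only [T, sin_sub_int_mul_two_pi]
    simpa [G] using this.symm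
  have c1 : ∀ y, cos (T (a, y)) ≤ 0 := fun y => by
    have := h1 _ (projIcc c d hcd y).2
    have e := eA (a, y)
    simp only [P, projIcc_left] at e
    exact nonpos_of_mul_nonpos_right (e ▸ this) (exp_pos _) |> fun h => h
  have c2 : ∀ y, 0 ≤ cos (T (b, y)) := fun y => by
    have := h2 _ (projIcc c d hcd y).2
    have e := eA (b, y)
    simp only [P, projIcc_right] at e
    exact nonneg_of_mul_nonneg_right (e ▸ this) (exp_pos _) |> fun h => h
  have c3 : ∀ x, sin (T (x, c)) ≤ 0 := fun x => by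
    have := h3 _ (projIcc a b hab x).2
    have e := eB (x, c)
    simp only [P, projIcc_left] at e
    exact nonpos_of_mul_nonpos_right (e ▸ this) (exp_pos _) |> fun h => h
  have c4 : ∀ x, 0 ≤ sin (T (x, d)) := fun x => by
    have := h4 _ (projIcc a b hab x).2
    have e := eB (x, d)
    simp only [P, projIcc_right] at e
    exact nonneg_of_mul_nonneg_right (e ▸ this) (exp_pos _) |> fun h => h
  have hp := pi_pos
  have s0 : -(π / 2) ≤ T (b, c) ∧ T (b, c) ≤ 0 := by
    have k1 : -π < T (b, c) := hk.1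
    have k2 : T (b, c) ≤ π := hk.2
    have k3 : T (b, c) ≤ π / 2 := by
      by_contra hh
      have := cos_neg_of_pi_div_two_lt_of_lt (not_le.1 hh) (by linarith)
      linarith [c2 c]
    constructor
    · by_contra hh
      have := cos_neg_of_pi_div_two_lt_of_lt (x := -T (b, c)) (by linarith) (by linarith)
      rw [cos_neg] at this
      linarith [c2 c]
    · by_contra hh
      have := sin_pos_of_pos_of_lt_pi (not_le.1 hh) (by linarith)
      linarith [c3 b]
  have s1 := turn (A := fun y => T (b, y)) (by fun_prop) (a := c) (b := d) s0.1 s0.2 c2 (c4 b)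
  have s2 := turn (A := fun x => T (x, d) - π / 2) (by fun_prop) (a := b) (b := a)
    (by linarith [s1.1]) (by linarith [s1.2]) (fun x => by rw [cos_sub_pi_div_two]; exact c4 x)
    (by rw [sin_sub_pi_div_two]; linarith [c1 d])
  have s3 := turn (A := fun y => T (a, y) - π) (by fun_prop) (a := d) (b := c)
    (by linarith [s2.1]) (by linarith [s2.2]) (fun y => by rw [cos_sub_pi]; linarith [c1 y])
    (by rw [sin_sub_pi]; linarith [c3 a])
  have s4 := turn (A := fun x => T (x, c) - π - π / 2) (by fun_prop) (a := a) (b := b)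
    (by linarith [s3.1]) (by linarith [s3.2])
    (fun x => by rw [cos_sub_pi_div_two, sin_sub_pi]; linarith [c3 x])
    (by rw [sin_sub_pi_div_two, cos_sub_pi]; linarith [c2 c])
  linarith [s4.1, s0.2]

end Pool.Agent.Lib.MP_b6ada6_gt
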