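import Pool.Agent.Lib.MP_b6ada6_gt.Defs
import Pool.Agent.Lib.MP_b6ada6_gt.Ess

/-! A level that carries essential loops on all tori around the axis. -/

noncomputable section

namespace Pool.Agent.Lib.MP_b6ada6_gt

open Set Filter Topology Real

theorem cup {u A : ℝ × ℝ → ℝ} (hu : Continuous u) (hp : Per u) (hA : Continuous A)
    (h1 : ∀ x, A (x + (1, 0)) = A x + 1) {τ σ : ℝ} (hτ : τ < σ)
    (h2 : ∀ x, u x ≤ σ → ∃ n : ℤ, A x = n) : Ess {x | τ < u x} := by
  by_contra hE
  obtain ⟨k, k1, k2⟩ := exists_k (isOpen_lt continuous_const hu)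
    (fun x k => by simp only [mem_ofPred_eq, hp x k]) hE
  let χ : ℝ × ℝ → ℝ := fun x => max 0 (min 1 (1 - 2 * (σ - u x) / (σ - τ)))
  have hχ : Continuous χ := by fun_prop
  let D : ℝ × ℝ → ℝ := fun x => χ x * ((k x).2 - x.2)
  have hD : Continuous D := continuous_iff_continuousAt.2 fun x => by
    by_cases hx : τ < u x
    · refine ContinuousAt.congr (f := fun y => χ y * ((k x).2 - y.2)) (by fun_prop) ?_
      filter_upwards [k2 x hx] with y hy
      simp only [D, hy]
    · refine ContinuousAt.congr (f := fun _ => 0) continuousAt_const ?_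
      filter_upwards [hu.continuousAt.eventually_lt continuousAt_const
        (show u x < (σ + τ) / 2 by linarith)] with y hy
      have : χ y = 0 := max_eq_left ((min_le_right _ _).trans (by
        rw [sub_nonpos, le_div_iff₀ (by linarith)]
        linarith))
      simp only [D, this, zero_mul]
  obtain ⟨C, hC⟩ := Per.bdd (f := D) (fun x m => by
    simp only [D, χ, hp x m, k1]
    simp [iv]) hD
  have hC0 : 0 ≤ C := (abs_nonneg _).trans (hC 0)
  obtain ⟨M, hM⟩ := (isCompact_Icc (a := -(C + 1)) (b := C + 1)).exists_bound_of_continuousOn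
    (f := fun y => A (0, y)) (by fun_prop)
  obtain ⟨N, hN⟩ := exists_nat_ge (M + 1)
  have st : ∀ (n : ℕ) (a y : ℝ), A (a + n, y) = A (a, y) + n := fun n a y => by
    induction n with
    | zero => simp
    | succ n ih =>
      have := h1 (a + n, y)
      rw [Prod.mk_add_mk, add_zero, ih] at this
      rw [Nat.cast_succ, ← add_assoc, this, add_assoc]
  obtain ⟨a, -, y, -, e1, e2⟩ := pm (A := fun x => A x - 1 / 2) (B := fun x => x.2 + D x - 1 / 2)
    (by fun_prop) (by fun_prop) (a := -N) (b := N) (c := -(C + 1)) (d := C + 1)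
    (by linarith [Nat.cast_nonneg (α := ℝ) N]) (by linarith)
    (fun y hy => by
      have := st N (-N) y
      rw [neg_add_cancel] at this
      linarith [(abs_le.1 (hM y hy)).2])
    (fun y hy => by
      have := st N 0 y
      rw [zero_add] at this
      linarith [(abs_le.1 (hM y hy)).1])
    (fun x _ => by linarith [(abs_le.1 (hC (x, -(C + 1)))).2])
    (fun x _ => by linarith [(abs_le.1 (hC (x, C + 1))).1])
  have half : ∀ n : ℤ, (n : ℝ) ≠ 1 / 2 := fun n e => by
    have : (2 * n : ℤ) = 1 := by exact_mod_cast (by linarith : (2 * n : ℝ) = 1)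
    omega
  by_cases hx : u (a, y) ≤ σ
  · obtain ⟨n, hn⟩ := h2 _ hx
    exact half n (by linarith)
  · have : χ (a, y) = 1 := by
      have h3 : 2 * (σ - u (a, y)) / (σ - τ) ≤ 0 := div_nonpos_of_nonpos_of_nonneg (by linarith)
        (by linarith)
      exact (max_eq_right (le_min zero_le_one (by linarith))).trans (min_eq_left (by linarith))
    refine half (k (a, y)).2 ?_
    simp only [D, this] at e2
    linarith

theorem arg_cont {F : ℝ × ℝ → ℝ} (hF : ∀ φ β, F (φ + 2 * π, β) = F (φ, β)) {c : ℂ} (hc : c ≠ 0)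
    {β : ℝ} (h : ContinuousAt F (c.arg, β)) :
    ContinuousAt (fun q : ℂ × ℝ => F (q.1.arg, q.2)) (c, β) := by
  have h1 : ContinuousAt (fun q : ℂ × ℝ => (c.arg + (q.1 / c).arg, q.2)) (c, β) := by
    refine (continuousAt_const.add ?_).prodMk continuousAt_snd
    refine ContinuousAt.comp (f := fun q : ℂ × ℝ => q.1 / c) (Complex.continuousAt_arg ?_)
      (by fun_prop)
    simp [div_self hc]
  refine (ContinuousAt.comp (f := fun q : ℂ × ℝ => (c.arg + (q.1 / c).arg, q.2))
    (by simpa [div_self hc] using h) h1).congr ?_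
  filter_upwards [continuous_fst.continuousAt.eventually_ne (x := (c, β)) hc] with q hq
  have e := Complex.arg_mul_coe_angle hc (div_ne_zero hq hc)
  rw [mul_div_cancel₀ _ hc, ← Real.Angle.coe_add, Real.Angle.angle_eq_iff_two_pi_dvd_sub] at e
  obtain ⟨n, hn⟩ := e
  have p : Function.Periodic (fun φ => F (φ, q.2)) (2 * π) := fun φ => hF φ _
  have := p.int_mul n (c.arg + (q.1 / c).arg)
  simp only [Function.comp, ← this]
  congr 2
  linarith

/-- the horizontal position, seen from the origin -/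
def om (p : Fin 3 → ℝ) : ℂ := (p 0 / p 2 : ℝ) + (p 1 / p 2 : ℝ) * Complex.I

/-- the position of the nearest point of the axis -/
def zc (p : Fin 3 → ℝ) : ℝ := log (p 0 ^ 2 + p 1 ^ 2 + p 2 ^ 2) / 2

theorem fermi_mem (r φ z : ℝ) : fermi r φ z ∈ H3 := by
  have := cosh_pos r
  simp only [H3, fermi, mem_ofPred_eq]
  simp
  positivity

theorem om_fermi (r φ z : ℝ) : om (fermi r φ z) = (sinh r : ℝ) * Complex.exp (φ * Complex.I) := by
  have h1 := (cosh_pos r).ne'
  have h2 := (exp_pos z).ne'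
  have e0 : fermi r φ z 0 / fermi r φ z 2 = sinh r * cos φ := by
    simp [fermi, tanh_eq_sinh_div_cosh]
    field_simp
  have e1 : fermi r φ z 1 / fermi r φ z 2 = sinh r * sin φ := by
    simp [fermi, tanh_eq_sinh_div_cosh]
    field_simp
  rw [om, e0, e1, Complex.exp_mul_I]
  push_cast
  ring

theorem fermi_inv {p : Fin 3 → ℝ} (hp : p ∈ H3) {r : ℝ} (h : ‖om p‖ = sinh r) :
    fermi r (om p).arg (zc p) = p := by
  have h0 : 0 < p 2 := hp
  have hc := cosh_pos r
  have e0 : sinh r * cos (om p).arg = p 0 / p 2 := by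
    rw [← h, Complex.norm_mul_cos_arg]
    simp [om, -Complex.ofReal_div]
  have e1 : sinh r * sin (om p).arg = p 1 / p 2 := by
    rw [← h, Complex.norm_mul_sin_arg]
    simp [om, -Complex.ofReal_div]
  have a0 : p 0 = p 2 * (sinh r * cos (om p).arg) := by rw [e0]; field_simp
  have a1 : p 1 = p 2 * (sinh r * sin (om p).arg) := by rw [e1]; field_simp
  have e2 : exp (zc p) = p 2 * cosh r := by
    have : p 0 ^ 2 + p 1 ^ 2 + p 2 ^ 2 = (p 2 * cosh r) ^ 2 := by
      rw [mul_pow, cosh_sq]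
      linear_combination (p 0 + p 2 * (sinh r * cos (om p).arg)) * a0 +
        (p 1 + p 2 * (sinh r * sin (om p).arg)) * a1 +
        (p 2 * sinh r) ^ 2 * sin_sq_add_cos_sq (om p).arg
    rw [zc, this, log_pow, Nat.cast_ofNat, mul_div_cancel_left₀ _ two_ne_zero,
      exp_log (by positivity)]
  funext i
  fin_cases i
  · simp only [fermi, e2, tanh_eq_sinh_div_cosh]
    simp
    rw [eq_comm, a0]
    field_simp
  · simp only [fermi, e2, tanh_eq_sinh_div_cosh]
    simp
    rw [eq_comm, a1]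
    field_simp
  · simp only [fermi, e2]
    simp
    field_simp

/-- the torus of radius `r`, with the lattice of the deck group normalised -/
def tor (l θ r : ℝ) (x : ℝ × ℝ) : H3 := ⟨fermi r (2 * π * x.1 + θ * x.2) (l * x.2), fermi_mem _ _ _⟩

theorem fermi_cont : Continuous fun q : ℝ × ℝ × ℝ => fermi q.1 q.2.1 q.2.2 := by
  simp only [fermi, tanh_eq_sinh_div_cosh]
  refine (continuous_exp.comp continuous_snd.snd).smul (continuous_pi fun i => ?_)
  fin_cases i <;> simp <;> fun_prop (disch := exact fun q => (cosh_pos _).ne')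

theorem tor_cont (l θ r : ℝ) : Continuous (tor l θ r) :=
  (fermi_cont.comp (f := fun x : ℝ × ℝ => (r, 2 * π * x.1 + θ * x.2, l * x.2))
    (by fun_prop)).subtype_mk _

theorem tor_one (l θ r : ℝ) (x : ℝ × ℝ) : tor l θ r (x + (1, 0)) = tor l θ r x := by
  refine Subtype.ext ?_
  have e : 2 * π * (x.1 + 1) + θ * x.2 = 2 * π * x.1 + θ * x.2 + 2 * π := by ring
  simp only [tor, Prod.fst_add, Prod.snd_add, add_zero, e, fermi, cos_add_two_pi, sin_add_two_pi]

theorem core {l θ : ℝ} (hl : 0 < l) {t : H3 → ℝ} (ht : Continuous t)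
    (hp : ∀ r, Per fun x => t (tor l θ r x)) {τ σ τ' : ℝ} (h1 : τ < σ) (h2 : σ < τ')
    {ret : H3 → H3} (hc : Continuous ret) (r1 : ∀ p, t (ret p) ≤ σ) (r2 : ∀ p, t p ≤ σ → ret p = p)
    {r r' : ℝ} (hr : 0 < r) (hrr : r ≤ r') (hE : ¬ Ess {x | t (tor l θ r x) < τ'}) :
    Ess {x | τ < t (tor l θ r' x)} := by
  have hs : 0 < sinh r := sinh_pos_iff.2 hr
  have hs' : sinh r ≤ sinh r' := sinh_le_sinh.2 hrr
  have hπ : 2 * π ≠ 0 := two_pi_pos.ne'
  obtain ⟨k, k1, k2⟩ := exists_k (isOpen_lt (ht.comp (tor_cont l θ r)) continuous_const)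
    (fun x k => by simp only [mem_ofPred_eq, Function.comp, hp r x k]) hE
  let ξ : ℝ × ℝ → ℝ × ℝ := fun q => ((q.1 - θ * q.2) / (2 * π), q.2)
  have hξ : Continuous ξ := by fun_prop
  let F : ℝ × ℝ → ℝ := fun q => q.1 - (k (ξ q)).1 * (2 * π)
  have hF : ∀ φ β, F (φ + 2 * π, β) = F (φ, β) := fun φ β => by
    have e : ξ (φ + 2 * π, β) = ξ (φ, β) + iv (1, 0) := by
      refine Prod.ext ?_ (by simp [ξ, iv])
      simp only [ξ, iv, Prod.fst_add]
      field_simp
      push_cast
      ring
    simp only [F, e, k1, Prod.fst_add]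
    push_cast
    ring
  have hi : ∀ i, Continuous fun p : H3 => p.1 i := fun i =>
    (continuous_apply i).comp continuous_subtype_val
  have ho : Continuous fun p : H3 => om p.1 :=
    (Complex.continuous_ofReal.comp ((hi 0).div (hi 2) fun p => (p.2 : 0 < p.1 2).ne')).add
      ((Complex.continuous_ofReal.comp ((hi 1).div (hi 2) fun p => (p.2 : 0 < p.1 2).ne')).mul
        continuous_const)
  have hz : Continuous fun p : H3 => zc p.1 := by
    unfold zc
    refine (Continuous.log ((((hi 0).pow 2).add ((hi 1).pow 2)).add ((hi 2).pow 2))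
      fun p => ?_).div_const _
    have : 0 < p.1 2 := p.2
    exact (show 0 < p.1 0 ^ 2 + p.1 1 ^ 2 + p.1 2 ^ 2 by positivity).ne'
  let S : Set H3 := {p | ‖om p.1‖ = sinh r ∧ t p ≤ σ}
  have hS : IsClosed S := (isClosed_eq ho.norm continuous_const).inter
    (isClosed_le ht continuous_const)
  have hf : ContinuousOn (fun p : H3 => F ((om p.1).arg, zc p.1 / l)) S := fun p hp' => by
    have h0 : om p.1 ≠ 0 := norm_pos_iff.1 (hp'.1 ▸ hs)
    have e : tor l θ r (ξ ((om p.1).arg, zc p.1 / l)) = p := by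
      refine Subtype.ext ?_
      rw [← fermi_inv p.2 hp'.1]
      simp only [tor, ξ]
      congr 1
      · rw [fermi_inv p.2 hp'.1]
        field_simp
        ring
      · rw [fermi_inv p.2 hp'.1]
        field_simp
    have h3 : ContinuousAt F ((om p.1).arg, zc p.1 / l) := by
      refine ContinuousAt.congr
        (f := fun q => q.1 - (k (ξ ((om p.1).arg, zc p.1 / l))).1 * (2 * π)) (by fun_prop) ?_
      filter_upwards [hξ.continuousAt.eventually (k2 _ (by
        simp only [mem_ofPred_eq, Function.comp, e]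
        exact hp'.2.trans_lt h2))] with q hq
      simp only [F, hq]
    exact (ContinuousAt.comp (f := fun p : H3 => (om p.1, zc p.1 / l)) (arg_cont hF h0 h3)
      (by fun_prop)).continuousWithinAt
  obtain ⟨E, hE'⟩ := ContinuousMap.exists_restrict_eq hS ⟨_, hf.domRestrict⟩
  have eS : ∀ p ∈ S, (sinh r : ℝ) * Complex.exp (E p * Complex.I) = om p.1 := fun p hp' => by
    have e : E p = F ((om p.1).arg, zc p.1 / l) := DFunLike.congr_fun hE' ⟨p, hp'⟩
    rw [e, ← hp'.1]
    conv_rhs => rw [← Complex.norm_mul_exp_arg_mul_I (om p.1)]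
    congr 1
    refine Complex.exp_eq_exp_iff_exists_int.2 ⟨-(k (ξ ((om p.1).arg, zc p.1 / l))).1, ?_⟩
    simp only [F]
    push_cast
    ring
  let G : H3 → ℂ := fun p => if ‖om (ret p).1‖ ≤ sinh r then
    (sinh r : ℝ) * Complex.exp (E (ret p) * Complex.I) else om (ret p).1
  have hG : Continuous G := Continuous.if_le (by fun_prop) (ho.comp hc) (ho.comp hc).norm
    continuous_const fun p e => eS _ ⟨e, r1 p⟩
  have hG0 : ∀ p, G p ≠ 0 := fun p => by
    simp only [G]
    split_ifs with h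
    · exact mul_ne_zero (Complex.ofReal_ne_zero.2 hs.ne') (Complex.exp_ne_zero _)
    · exact norm_pos_iff.1 (hs.trans (not_le.1 h))
  have hcv : Convex ℝ H3 := convex_halfSpace_gt (f := fun p : Fin 3 → ℝ => p 2)
    ⟨fun _ _ => rfl, fun _ _ => rfl⟩ 0
  have i1 : ContractibleSpace H3 := hcv.contractibleSpace ⟨_, fermi_mem 0 0 0⟩
  have i2 : LocallyPathConnectedSpace H3 :=
    IsOpen.locallyPathConnectedSpace (U := H3) (isOpen_lt continuous_const (continuous_apply 2))
  obtain ⟨L, hL, eL⟩ := exists_log hG hG0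
  have htc := tor_cont l θ r'
  refine cup (u := fun x => t (tor l θ r' x))
    (A := fun x => (2 * π * x.1 + θ * x.2 - (L (tor l θ r' x)).im) / (2 * π)) (by fun_prop) (hp r')
    (by fun_prop) (fun x => ?_) h1 fun x hx => ?_
  · simp only [tor_one, Prod.fst_add, Prod.snd_add]
    field_simp
    ring
  · have e1 : om (tor l θ r' x).1 = _ := om_fermi _ _ _
    have e2 : ‖om (tor l θ r' x).1‖ = sinh r' := by
      rw [e1, norm_mul, Complex.norm_exp_ofReal_mul_I, mul_one, Complex.norm_real,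
        Real.norm_of_nonneg (hs.le.trans hs')]
    have e3 : G (tor l θ r' x) = om (tor l θ r' x).1 := by
      simp only [G, r2 _ hx]
      split_ifs with h
      · exact eS _ ⟨le_antisymm h (e2 ▸ hs'), hx⟩
      · rfl
    have e4 := eL (tor l θ r' x)
    rw [e3, e1, ← exp_log (hs.trans_le hs'), Complex.ofReal_exp, ← Complex.exp_add] at e4
    obtain ⟨n, hn⟩ := Complex.exp_eq_exp_iff_exists_int.1 e4
    refine ⟨-n, ?_⟩
    have := congrArg Complex.im hn
    simp only [Complex.add_im, Complex.ofReal_im, Complex.mul_im, Complex.ofReal_re, Complex.I_im,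
      Complex.I_re, Complex.intCast_re, Complex.intCast_im, Complex.mul_re, Complex.re_ofNat,
      Complex.im_ofNat] at this
    rw [this]
    push_cast
    field_simp
    ring

theorem exists_level {l θ : ℝ} (hl : 0 < l) {t : H3 → ℝ} (hp : ∀ r, Per fun x => t (tor l θ r x))
    {P : Type} [TopologicalSpace P] (Φ : H3 ≃ₜ P × ℝ) (hΦ : ∀ p, (Φ p).2 = t p) :
    ∃ τ, ∀ r > 0, ∀ ε > 0, Ess {x | t (tor l θ r x) < τ + ε} ∧ Ess {x | τ - ε < t (tor l θ r x)} := by
  have ht : Continuous t := by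
    rw [← funext hΦ]
    fun_prop
  have star : ∀ r > 0, ∀ r' > 0, ∀ τ τ', τ < τ' → ¬ Ess {x | t (tor l θ r x) < τ'} →
      Ess {x | τ < t (tor l θ r' x)} := fun r hr r' hr' τ τ' h hE => by
    rcases le_total r r' with hrr | hrr
    · refine core hl ht hp (σ := (τ + τ') / 2) (by linarith) (by linarith)
        (ret := fun p => Φ.symm ((Φ p).1, min (Φ p).2 ((τ + τ') / 2))) (by fun_prop)
        (fun p => ?_) (fun p h => ?_) hr hrr hE
      · rw [← hΦ, Φ.apply_symm_apply]
        exact min_le_right _ _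
      · rw [min_eq_left (hΦ p ▸ h), Prod.mk.eta, Φ.symm_apply_apply]
    · by_contra hE'
      refine hE ((core hl (t := fun p => -t p) ht.neg (fun r x k => congrArg Neg.neg (hp r x k))
        (τ := -τ') (σ := -((τ + τ') / 2)) (τ' := -τ) (by linarith) (by linarith)
        (ret := fun p => Φ.symm ((Φ p).1, max (Φ p).2 ((τ + τ') / 2))) (by fun_prop)
        (fun p => ?_) (fun p h => ?_) hr' hrr ?_).mono fun x hx => by simpa using hx)
      · rw [← hΦ, Φ.apply_symm_apply]
        exact neg_le_neg (le_max_right _ _)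
      · rw [max_eq_left (hΦ p ▸ neg_le_neg_iff.1 h), Prod.mk.eta, Φ.symm_apply_apply]
      · exact fun h => hE' (h.mono fun x hx => by simpa using hx)
  obtain ⟨C, hC⟩ := (hp 1).bdd (ht.comp (tor_cont l θ 1))
  let T : Set ℝ := {τ | ∃ r > 0, ¬ Ess {x | t (tor l θ r x) < τ}}
  have T0 : T.Nonempty := ⟨-C, 1, one_pos, fun ⟨x, _, _, h⟩ =>
    absurd h.source_mem (not_lt.2 (abs_le.1 (hC x)).1)⟩
  have T1 : BddAbove T := ⟨C, fun τ ⟨r, hr, h⟩ => not_lt.1 fun hlt => by
    obtain ⟨x, _, _, h'⟩ := star r hr 1 one_pos C τ hlt h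
    exact absurd h'.source_mem (not_lt.2 (abs_le.1 (hC x)).2)⟩
  refine ⟨sSup T, fun r hr ε hε => ⟨?_, ?_⟩⟩
  · by_contra h
    linarith [le_csSup T1 ⟨r, hr, h⟩]
  · obtain ⟨τ', ⟨r', hr', h⟩, h'⟩ := exists_lt_of_lt_csSup T0 (show sSup T - ε < sSup T by linarith)
    exact star r' hr' r hr _ _ h' h

end Pool.Agent.Lib.MP_b6ada6_gt
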